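import Pool.Agent.Q149.WB.Loc

/-!
# The number of weights with nonvanishing central value, for wreath products
-/

set_option autoImplicit false
set_option linter.unusedSectionVars false

open scoped BigOperators Classical

noncomputable section

namespace Pool.Agent.Q149.WB

open Pool.Agent.Q90.WR Pool.Agent.Q149.WA
open Pool.Agent.Y63.NV (centralValue IsClassFun IsWt)
open Pool.Agent.Y63.AWC (ConjugateSubgroups pSubgroupSetoid)
open Pool.Agent.Y286.NV (orbit_weights)

variable {F : Type} [Field F] (red : integralClosure ℤ ℂ →+* F)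

/-- the number of `G`-orbits of weights whose central character does not vanish at `z` -/
def wst (p : ℕ) {G : Type} [Group G] (z : G → F) : ℕ :=
  ∑ᶠ c : Quotient (pSubgroupSetoid p G), nws red p c.out.1 z

theorem card_mul_wst (p : ℕ) {G : Type} [Group G] [Finite G] {z : G → F} (hz : IsClassFun z) :
    Nat.card G * wst red p z = ∑ᶠ Q : {Q : Subgroup G // IsPGroup p Q},
      Nat.card (Subgroup.normalizer (Q.1 : Set G)) * nws red p Q.1 z :=
  orbit_weights p (fun Q => nws red p Q z) (fun g Q => nws_conj red p hz g Q)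

theorem nws_zero_ps {G : Type} [Group G] [Finite G] {p : ℕ} [hp : Fact p.Prime] (hp2 : p ≠ 2)
    {Q : Subgroup (Wr G)} (hQ : IsPGroup p Q) (hne : Q ≠ ps (pA Q) (pB Q)) (z : Wr G → F) :
    nws red p Q z = 0 :=
  nws_zero red (isPGroup_ps (isPGroup_pA hQ) (isPGroup_pB hQ)) (le_ps hp.out hp2 hQ) hne
    (normalizer_le_ps Q) z

theorem wst_wr {G : Type} [Group G] [Finite G] {p : ℕ} [hp : Fact p.Prime] [CharP F p]
    (hp2 : p ≠ 2) {z : G → F} (hz : IsClassFun z) :
    2 * wst red p (sq z) = wst red p z ^ 2 + 3 * wst red p z := by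
  have f0 : Fintype G := Fintype.ofFinite G
  have f1 : Fintype {Q : Subgroup G // IsPGroup p Q} := Fintype.ofFinite _
  have f2 : Fintype {Q : Subgroup (Wr G) // IsPGroup p Q} := Fintype.ofFinite _
  have h1 := card_mul_wst red p (Cf_sq (f := z) hz)
  have h2 := card_mul_wst red p hz
  rw [finsum_eq_sum_of_fintype] at h1 h2
  have h3 : ∑ t : {Q : Subgroup G // IsPGroup p Q} × {Q : Subgroup G // IsPGroup p Q},
      Nat.card (Subgroup.normalizer (ps t.1.1 t.2.1 : Set (Wr G))) *
        nws red p (ps t.1.1 t.2.1) (sq z) =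
      ∑ Q : {Q : Subgroup (Wr G) // IsPGroup p Q},
        Nat.card (Subgroup.normalizer (Q.1 : Set (Wr G))) * nws red p Q.1 (sq z) := by
    refine Finset.sum_of_injOn (fun t => ⟨ps t.1.1 t.2.1, isPGroup_ps t.1.2 t.2.2⟩) ?_ ?_ ?_ ?_
    · rintro ⟨A, B⟩ - ⟨A', B'⟩ - h
      have h4 : ps A.1 B.1 = ps A'.1 B'.1 := congrArg Subtype.val h
      refine Prod.ext (Subtype.ext ?_) (Subtype.ext ?_)
      · ext a
        have h5 : (⟨a, 1, false⟩ : Wr G) ∈ ps A.1 B.1 ↔ (⟨a, 1, false⟩ : Wr G) ∈ ps A'.1 B'.1 := by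
          rw [h4]
        simpa [mem_ps] using h5
      · ext b
        have h5 : (⟨1, b, false⟩ : Wr G) ∈ ps A.1 B.1 ↔ (⟨1, b, false⟩ : Wr G) ∈ ps A'.1 B'.1 := by
          rw [h4]
        simpa [mem_ps] using h5
    · intro t _
      exact Finset.mem_coe.mpr (Finset.mem_univ _)
    · intro Q _ hQ
      rw [nws_zero_ps red hp2 Q.2, mul_zero]
      intro h4
      apply hQ
      exact ⟨(⟨pA Q.1, isPGroup_pA Q.2⟩, ⟨pB Q.1, isPGroup_pB Q.2⟩),
        Finset.mem_coe.mpr (Finset.mem_univ _), Subtype.ext h4.symm⟩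
    · intro t _
      rfl
  rw [← h3, Fintype.sum_prod_type] at h1
  simp_rw [contribz red hp2 _ _ hz, Finset.sum_add_distrib, ← Finset.mul_sum] at h1
  have h4 : ∀ A : {Q : Subgroup G // IsPGroup p Q},
      ∑ B : {Q : Subgroup G // IsPGroup p Q}, (if ConjugateSubgroups A.1 B.1 then
        Nat.card (Subgroup.normalizer (A.1 : Set G)) else 0) = Nat.card G :=
    fun A => sum_conj A.1 A.2
  simp_rw [h4, ← h2, ← Finset.sum_mul, ← Finset.mul_sum] at h1
  rw [← h2, Wr.card] at h1
  have h5 : 0 < Nat.card G ^ 2 := pow_pos Nat.card_pos _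
  apply Nat.eq_of_mul_eq_mul_left h5
  calc Nat.card G ^ 2 * (2 * wst red p (sq z)) =
      2 * Nat.card G ^ 2 * wst red p (sq z) := by ring
    _ = _ := by
      rw [h1]
      ring

end Pool.Agent.Q149.WB
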