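import Pool.Agent.Q149.WB.Lsum
import Pool.Agent.Q149.WB.Wsum
import Pool.Agent.Y63.NV.Bawc

/-!
# From single elements of the centre to blocks and back
-/

set_option autoImplicit false
set_option linter.unusedSectionVars false

open scoped BigOperators Classical

noncomputable section

namespace Pool.Agent.Q149.WB

open Pool.Agent.Y63.NV (centralValue IsClassFun IsWt IsIrrTrace IsBlock numIrrBlock numWtBlock
  conv schur' wblk')
open Pool.Agent.Y63.NV.B48B (card_fib CF rs)
open Pool.Agent.Y63.NV.B286 (conv_class single_class)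
open Pool.Agent.Y63.AWC (pSubgroupSetoid)

variable {F : Type} [Field F]

/-- the number of `G`-classes of weights of the block `B` -/
def numWts (p : ℕ) (red : integralClosure ℤ ℂ →+* F) {G : Type} [Group G] (B : (G → F) → F) : ℕ :=
  ∑ᶠ c : Quotient (pSubgroupSetoid p G), numWtBlock p red c.out.1 B

section

variable {G : Type} [Group G]

theorem rs_eq {B B' : (G → F) → F} : rs B = rs B' ↔ ∀ f, IsClassFun f → B f = B' f :=
  ⟨fun h f hf => congrFun h ⟨f, hf⟩, fun h => funext fun f => h f.1 f.2⟩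

theorem numIrrBlock_congr {B B' : (G → F) → F} (h : rs B = rs B') :
    numIrrBlock B = numIrrBlock B' := by
  rw [rs_eq] at h
  unfold numIrrBlock
  refine Nat.card_congr (Equiv.subtypeEquivRight fun φ => and_congr_right fun _ => ?_)
  refine forall_congr' fun f => forall_congr' fun hf => ?_
  rw [h f hf]

theorem numWtBlock_congr (p : ℕ) (red : integralClosure ℤ ℂ →+* F) (Q : Subgroup G)
    {B B' : (G → F) → F} (h : rs B = rs B') :
    numWtBlock p red Q B = numWtBlock p red Q B' := by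
  rw [rs_eq] at h
  unfold numWtBlock
  refine Nat.card_congr (Equiv.subtypeEquivRight fun φ => and_congr_right fun _ => ?_)
  refine forall_congr' fun f => forall_congr' fun hf => ?_
  rw [h f hf]

theorem numWts_congr (p : ℕ) (red : integralClosure ℤ ℂ →+* F) {B B' : (G → F) → F}
    (h : rs B = rs B') : numWts p red B = numWts p red B' :=
  finsum_congr fun c => numWtBlock_congr p red c.out.1 h

end

section

variable {p : ℕ} [hp : Fact p.Prime] [IsAlgClosed F] [CharP F p]
  (red : integralClosure ℤ ℂ →+* F) (G : Type) [Group G] [Finite G]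

/-- the blocks -/
theorem package : ∃ (S : Finset (CF G F → F)), (∀ β ∈ S, ∃ B, IsBlock B ∧ rs B = β) ∧
    (∀ B : (G → F) → F, IsBlock B → rs B ∉ S → numIrrBlock B = 0 ∧ numWts p red B = 0) ∧
    ∃ n w : (CF G F → F) → ℕ, (∀ B : (G → F) → F, IsBlock B → rs B ∈ S →
      numIrrBlock B = n (rs B) ∧ numWts p red B = w (rs B)) ∧
    ∀ z (hz : IsClassFun z), lst z = (∑ β ∈ S, if β ⟨z, hz⟩ ≠ 0 then n β else 0) ∧
      wst red p z = ∑ β ∈ S, if β ⟨z, hz⟩ ≠ 0 then w β else 0 := by
  have : Fintype G := Fintype.ofFinite G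
  have h0 := Pool.Agent.Y914.NV.irr
  have h1 := schur'
  have h2 := wblk'
  let X : Type := {φ : G → F // IsIrrTrace φ}
  have hX : Finite X := (h0 F G).1.to_subtype
  have hBX : ∀ φ : X, (∃ x, φ.1 x ≠ 0) ∧ ∃ B : (G → F) → F, IsBlock B ∧
      ∀ f : G → F, IsClassFun f → ∀ x, ∑ᶠ g, f g * φ.1 (g * x) = B f * φ.1 x :=
    fun φ => h1 F G φ.1 φ.2
  choose hne BX hBX1 hBX2 using hBX
  -- the weights
  let P : Type := {Q : Subgroup G // IsPGroup p Q}
  have hP : Finite P := inferInstanceAs (Finite {Q : Subgroup G // IsPGroup p Q})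
  have : Fintype P := Fintype.ofFinite P
  let Y : P → Type := fun Q => {χ : Subgroup.normalizer (Q.1 : Set G) → ℂ //
    IsWt p (Q.1.subgroupOf (Subgroup.normalizer (Q.1 : Set G))) χ}
  have hY : ∀ Q, Finite (Y Q) := fun Q =>
    ((h0 ℂ (Subgroup.normalizer (Q.1 : Set G))).1.subset (fun χ h => h.irr)).to_subtype
  let BY : ∀ Q : P, Y Q → (G → F) → F := fun Q χ f => centralValue red χ.1 (fun x => f x)
  have hBY : ∀ Q χ, IsBlock (BY Q χ) := fun Q χ => h2 p F red G Q.1 χ.1 Q.2 χ.2
  have hfX : Fintype X := Fintype.ofFinite X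
  have hfY : ∀ Q, Fintype (Y Q) := fun Q => Fintype.ofFinite (Y Q)
  let rX : X → (CF G F → F) := fun φ => rs (BX φ)
  let rY : ∀ Q, Y Q → (CF G F → F) := fun Q χ => rs (BY Q χ)
  let S : Finset (CF G F → F) := Finset.univ.image rX ∪
    (Finset.univ : Finset P).biUnion (fun Q => Finset.univ.image (rY Q))
  have hSX : ∀ φ, rX φ ∈ S := fun φ =>
    Finset.mem_union_left _ (Finset.mem_image_of_mem _ (Finset.mem_univ _))
  have hSY : ∀ Q χ, rY Q χ ∈ S := fun Q χ =>
    Finset.mem_union_right _ (Finset.mem_biUnion.2 ⟨Q, Finset.mem_univ _,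
      Finset.mem_image_of_mem _ (Finset.mem_univ _)⟩)
  have hS : ∀ β ∈ S, ∃ B : (G → F) → F, IsBlock B ∧ rs B = β := by
    intro β hβ
    rcases Finset.mem_union.1 hβ with h | h
    · obtain ⟨φ, -, rfl⟩ := Finset.mem_image.1 h
      exact ⟨BX φ, hBX1 φ, rfl⟩
    · obtain ⟨Q, -, h⟩ := Finset.mem_biUnion.1 h
      obtain ⟨χ, -, rfl⟩ := Finset.mem_image.1 h
      exact ⟨BY Q χ, hBY Q χ, rfl⟩
  have hfQ : Fintype (Quotient (pSubgroupSetoid p G)) := Fintype.ofFinite _
  have e1 : ∀ B : (G → F) → F, numIrrBlock B = Nat.card {φ : X // rX φ = rs B} := by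
    intro B
    unfold numIrrBlock
    refine Nat.card_congr
      { toFun := fun φ => ⟨⟨φ.1, φ.2.1⟩, ?_⟩
        invFun := fun φ => ⟨φ.1.1, φ.1.2, ?_⟩
        left_inv := fun φ => rfl
        right_inv := fun φ => rfl }
    · funext f
      obtain ⟨x, hx⟩ := hne ⟨φ.1, φ.2.1⟩
      have h4 := hBX2 ⟨φ.1, φ.2.1⟩ f.1 f.2 x
      have h5 := φ.2.2 f.1 f.2 x
      exact mul_right_cancel₀ hx (h4.symm.trans h5)
    · intro f hf x
      have h4 := hBX2 φ.1 f hf x
      have h5 : BX φ.1 f = B f := congrFun φ.2 ⟨f, hf⟩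
      rw [← h5]
      exact h4
  have e2 : ∀ (Q : P) (B : (G → F) → F),
      numWtBlock p red Q.1 B = Nat.card {χ : Y Q // rY Q χ = rs B} := by
    intro Q B
    unfold numWtBlock
    refine Nat.card_congr
      { toFun := fun χ => ⟨⟨χ.1, χ.2.1⟩, ?_⟩
        invFun := fun χ => ⟨χ.1.1, χ.1.2, ?_⟩
        left_inv := fun χ => rfl
        right_inv := fun χ => rfl }
    · funext f
      exact χ.2.2 f.1 f.2
    · intro f hf
      exact congrFun χ.2 ⟨f, hf⟩
  refine ⟨S, hS, ?_, fun β => Nat.card {φ : X // rX φ = β},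
    fun β => ∑ᶠ c : Quotient (pSubgroupSetoid p G), Nat.card {χ : Y c.out // rY c.out χ = β},
    ?_, ?_⟩
  · intro B _ hB
    constructor
    · rw [e1, Nat.card_eq_zero]
      left
      exact ⟨fun φ => hB (φ.2 ▸ hSX φ.1)⟩
    · unfold numWts
      rw [← finsum_zero (α := Quotient (pSubgroupSetoid p G))]
      refine finsum_congr fun c => ?_
      rw [e2 c.out, Nat.card_eq_zero]
      left
      exact ⟨fun χ => hB (χ.2 ▸ hSY c.out χ.1)⟩
  · intro B _ _
    exact ⟨e1 B, finsum_congr fun c => e2 c.out B⟩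
  · intro z hz
    constructor
    · have e3 : lst z = Nat.card {φ : X // rX φ ⟨z, hz⟩ ≠ 0} := by
        unfold lst
        refine Nat.card_congr
          { toFun := fun φ => ⟨⟨φ.1, φ.2.1⟩, ?_⟩
            invFun := fun φ => ⟨φ.1.1, φ.1.2, ?_⟩
            left_inv := fun φ => rfl
            right_inv := fun φ => rfl }
        · obtain ⟨x, hx⟩ := φ.2.2
          have h4 := hBX2 ⟨φ.1, φ.2.1⟩ z hz x
          intro h5
          apply hx
          rw [h4]
          exact mul_eq_zero_of_left h5 _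
        · obtain ⟨x, hx⟩ := hne φ.1
          refine ⟨x, ?_⟩
          rw [hBX2 φ.1 z hz x]
          exact mul_ne_zero φ.2 hx
      rw [e3]
      refine (card_fib rX S hSX (fun β => β ⟨z, hz⟩ ≠ 0)).trans
        (Finset.sum_congr rfl fun β _ => ?_)
      by_cases h : β ⟨z, hz⟩ ≠ 0
      · rw [if_pos h, if_pos h]
      · rw [if_neg h, if_neg h]
    · have e4 : ∀ Q : P, nws red p Q.1 z = Nat.card {χ : Y Q // rY Q χ ⟨z, hz⟩ ≠ 0} := by
        intro Q
        unfold nws
        exact Nat.card_congr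
          { toFun := fun χ => ⟨⟨χ.1, χ.2.1⟩, χ.2.2⟩
            invFun := fun χ => ⟨χ.1.1, χ.1.2, χ.2⟩
            left_inv := fun χ => rfl
            right_inv := fun χ => rfl }
      unfold wst
      rw [finsum_eq_sum_of_fintype]
      have e6 : ∀ d : Quotient (pSubgroupSetoid p G), nws red p d.out.1 z =
          ∑ β ∈ S, if β ⟨z, hz⟩ ≠ 0 then Nat.card {χ : Y d.out // rY d.out χ = β} else 0 := by
        intro d
        rw [e4 d.out]
        refine (card_fib (rY d.out) S (hSY d.out) (fun β => β ⟨z, hz⟩ ≠ 0)).trans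
          (Finset.sum_congr rfl fun β _ => ?_)
        by_cases h : β ⟨z, hz⟩ ≠ 0
        · rw [if_pos h, if_pos h]
        · rw [if_neg h, if_neg h]
      rw [Finset.sum_congr rfl fun d _ => e6 d, Finset.sum_comm]
      refine Finset.sum_congr rfl fun β hβ => ?_
      by_cases h : β ⟨z, hz⟩ ≠ 0
      · simp only [if_pos h]
        rw [finsum_eq_sum_of_fintype]
      · simp only [if_neg h]
        rw [Finset.sum_const_zero]

variable {G}

/-- Relations between the two numbers of all blocks give relations for all central elements. -/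
theorem to_elem {K : ℝ} (h : ∀ B : (G → F) → F, IsBlock B →
    (numIrrBlock B : ℝ) ≤ K * numWts p red B) (z : G → F) (hz : IsClassFun z) :
    (lst z : ℝ) ≤ K * wst red p z := by
  obtain ⟨S, hS, -, n, w, h2, h3⟩ := package (p := p) red G
  obtain ⟨h4, h5⟩ := h3 z hz
  rw [h4, h5]
  push_cast
  rw [Finset.mul_sum]
  refine Finset.sum_le_sum fun β hβ => ?_
  obtain ⟨B, hB, rfl⟩ := hS β hβ
  obtain ⟨h6, h7⟩ := h2 B hB hβ
  rw [← h6, ← h7]
  by_cases h8 : rs B ⟨z, hz⟩ ≠ 0
  · rw [if_pos h8, if_pos h8]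
    exact h B hB
  · rw [if_neg h8, if_neg h8, mul_zero]

theorem to_elem' {K : ℝ} (h : ∀ B : (G → F) → F, IsBlock B →
    (numWts p red B : ℝ) ≤ K * numIrrBlock B) (z : G → F) (hz : IsClassFun z) :
    (wst red p z : ℝ) ≤ K * lst z := by
  obtain ⟨S, hS, -, n, w, h2, h3⟩ := package (p := p) red G
  obtain ⟨h4, h5⟩ := h3 z hz
  rw [h4, h5]
  push_cast
  rw [Finset.mul_sum]
  refine Finset.sum_le_sum fun β hβ => ?_
  obtain ⟨B, hB, rfl⟩ := hS β hβ
  obtain ⟨h6, h7⟩ := h2 B hB hβ
  rw [← h6, ← h7]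
  by_cases h8 : rs B ⟨z, hz⟩ ≠ 0
  · rw [if_pos h8, if_pos h8]
    exact h B hB
  · rw [if_neg h8, if_neg h8, mul_zero]

theorem to_elem_mod (h : ∀ B : (G → F) → F, IsBlock B →
    numIrrBlock B ≡ numWts p red B [MOD 2]) (z : G → F) (hz : IsClassFun z) :
    lst z ≡ wst red p z [MOD 2] := by
  obtain ⟨S, hS, -, n, w, h2, h3⟩ := package (p := p) red G
  obtain ⟨h4, h5⟩ := h3 z hz
  rw [h4, h5]
  have key : ∀ T ⊆ S, (∑ β ∈ T, if β ⟨z, hz⟩ ≠ 0 then n β else 0) ≡
      (∑ β ∈ T, if β ⟨z, hz⟩ ≠ 0 then w β else 0) [MOD 2] := by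
    intro T
    induction T using Finset.induction_on with
    | empty => intro _; rfl
    | insert β T hβ ih =>
      intro hT
      rw [Finset.sum_insert hβ, Finset.sum_insert hβ]
      refine Nat.ModEq.add ?_ (ih fun x hx => hT (Finset.mem_insert_of_mem hx))
      obtain ⟨B, hB, rfl⟩ := hS β (hT (Finset.mem_insert_self _ _))
      obtain ⟨h6, h7⟩ := h2 B hB (hT (Finset.mem_insert_self _ _))
      rw [← h6, ← h7]
      by_cases h8 : rs B ⟨z, hz⟩ ≠ 0
      · rw [if_pos h8, if_pos h8]
        exact h B hB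
      · rw [if_neg h8, if_neg h8]
  exact key S subset_rfl

/-- separation of a block from finitely many others -/
theorem sep {G : Type} [Group G] {B : (G → F) → F} (hB : IsBlock B) (S : Finset (CF G F → F))
    (hS : ∀ β ∈ S, ∃ B', IsBlock B' ∧ rs B' = β) :
    ∃ z : G → F, ∃ hz : IsClassFun z, B z ≠ 0 ∧ ∀ β ∈ S, β ≠ rs B → β ⟨z, hz⟩ = 0 := by
  induction S using Finset.induction_on with
  | empty =>
    refine ⟨Pi.single 1 1, single_class, ?_, fun β hβ => absurd hβ (Finset.notMem_empty β)⟩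
    rw [hB.one]
    exact one_ne_zero
  | insert β S hβ ih =>
    obtain ⟨z, hz, h1, h2⟩ := ih fun x hx => hS x (Finset.mem_insert_of_mem hx)
    by_cases h : β = rs B
    · refine ⟨z, hz, h1, fun x hx hne => ?_⟩
      rcases Finset.mem_insert.1 hx with rfl | hx
      · exact absurd h hne
      · exact h2 x hx hne
    · obtain ⟨B', hB', rfl⟩ := hS β (Finset.mem_insert_self _ _)
      have h3 : ∃ f, IsClassFun f ∧ B f ≠ B' f := by
        by_contra hcon
        push Not at hcon
        exact h (rs_eq.2 fun f hf => (hcon f hf).symm)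
      obtain ⟨f, hf, hne⟩ := h3
      set f' : G → F := f + (-(B' f)) • (Pi.single 1 1 : G → F) with hf'
      have hs : IsClassFun ((-(B' f)) • (Pi.single 1 1 : G → F)) := by
        intro g x
        have := single_class (F := F) g x
        rw [Pi.smul_apply, Pi.smul_apply, this]
      have hf'c : IsClassFun f' := by
        intro g x
        rw [hf', Pi.add_apply, Pi.add_apply, hf g x, hs g x]
      have hval : ∀ C : (G → F) → F, IsBlock C → C f' = C f - B' f := by
        intro C hC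
        rw [hf', hC.add _ _ hf hs, hC.smul _ _ single_class, hC.one, mul_one, sub_eq_add_neg]
      refine ⟨conv z f', conv_class hz hf'c, ?_, fun x hx hxne => ?_⟩
      · rw [hB.mul _ _ hz hf'c, hval B hB]
        exact mul_ne_zero h1 (sub_ne_zero.2 hne)
      · obtain ⟨C, hC, rfl⟩ := hS x hx
        change C (conv z f') = 0
        rw [hC.mul _ _ hz hf'c]
        rcases Finset.mem_insert.1 hx with h4 | hx
        · have h5 : C f' = 0 := by
            rw [hval C hC, rs_eq.1 h4 f hf, sub_self]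
          rw [h5, mul_zero]
        · have h5 : C z = 0 := h2 _ hx hxne
          rw [h5, zero_mul]

/-- The two numbers of a block are those of a central element. -/
theorem of_elem {B : (G → F) → F} (hB : IsBlock B) : ∃ z : G → F, IsClassFun z ∧
    lst z = numIrrBlock B ∧ wst red p z = numWts p red B := by
  obtain ⟨S, hS, h0, n, w, h2, h3⟩ := package (p := p) red G
  by_cases h : rs B ∈ S
  · obtain ⟨z, hz, h4, h5⟩ := sep hB S hS
    obtain ⟨h6, h7⟩ := h3 z hz
    obtain ⟨h8, h9⟩ := h2 B hB h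
    refine ⟨z, hz, ?_, ?_⟩
    · rw [h6, h8, Finset.sum_eq_single (rs B)]
      · exact if_pos h4
      · intro β hβ hne
        rw [if_neg]
        exact not_not.2 (h5 β hβ hne)
      · exact fun hn => absurd h hn
    · rw [h7, h9, Finset.sum_eq_single (rs B)]
      · exact if_pos h4
      · intro β hβ hne
        rw [if_neg]
        exact not_not.2 (h5 β hβ hne)
      · exact fun hn => absurd h hn
  · have hz : IsClassFun (0 : G → F) := fun _ _ => rfl
    obtain ⟨h6, h7⟩ := h3 0 hz
    obtain ⟨h8, h9⟩ := h0 B hB h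
    have h10 : ∀ β ∈ S, β ⟨0, hz⟩ = 0 := by
      intro β hβ
      obtain ⟨C, hC, rfl⟩ := hS β hβ
      change C 0 = 0
      have := hC.smul 0 (0 : G → F) hz
      rwa [zero_smul, zero_mul] at this
    refine ⟨0, hz, ?_, ?_⟩
    · rw [h6, h8]
      exact Finset.sum_eq_zero fun β hβ => if_neg (not_not.2 (h10 β hβ))
    · rw [h7, h9]
      exact Finset.sum_eq_zero fun β hβ => if_neg (not_not.2 (h10 β hβ))

end

end Pool.Agent.Q149.WB
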