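import Pool.Agent.Q149.WB.Blk
import Pool.Agent.Q149.WA.Par
import Pool.Agent.Q288.AP.Num

/-!
# The blockwise weight conjecture: parity or size decides
-/

set_option autoImplicit false
set_option linter.unusedSectionVars false

open scoped BigOperators Classical

noncomputable section

namespace Pool.Agent.Q149.WB

open Pool.Agent.Q90.WR
open Pool.Agent.Y63.NV (centralValue IsClassFun IsWt IsIrrTrace IsBlock numIrrBlock numWtBlock BAWC)
open Pool.Agent.Y63.AWC (pSubgroupSetoid)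

variable {F : Type} [Field F]

/-! ### towers -/

theorem Cf_sq' {G : Type} [Group G] [Finite G] {z : G → F} (hz : IsClassFun z) :
    IsClassFun (sq z) := by
  have : Fintype G := Fintype.ofFinite G
  exact Cf_sq hz

/-- the function `z` on the iterated wreath products -/
def sqN : ∀ (j : ℕ) {G : Type} [Group G], (G → F) → (WrN j G → F)
  | 0, _, _, z => z
  | j + 1, G, _, z => sqN j (G := Wr G) (sq z)

theorem sqN_class : ∀ (j : ℕ) {G : Type} [Group G] [Finite G] {z : G → F}, IsClassFun z →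
    IsClassFun (sqN j z)
  | 0, _, _, _, _, hz => hz
  | j + 1, G, _, _, _, hz => sqN_class j (G := Wr G) (Cf_sq' hz)

section

variable {p : ℕ} [hp : Fact p.Prime] [IsAlgClosed F] [CharP F p]
  (red : integralClosure ℤ ℂ →+* F)

theorem lst_rec (hp2 : p ≠ 2) : ∀ (j : ℕ) {G : Type} [Group G] [Finite G] {z : G → F},
    IsClassFun z → 2 * lst (sqN (j + 1) z) = lst (sqN j z) ^ 2 + 3 * lst (sqN j z)
  | 0, _, _, _, _, hz => lst_wr hp2 hz
  | j + 1, G, _, _, _, hz => lst_rec hp2 j (G := Wr G) (Cf_sq' hz)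

theorem wst_rec (hp2 : p ≠ 2) : ∀ (j : ℕ) {G : Type} [Group G] [Finite G] {z : G → F},
    IsClassFun z → 2 * wst red p (sqN (j + 1) z) =
      wst red p (sqN j z) ^ 2 + 3 * wst red p (sqN j z)
  | 0, _, _, _, _, hz => wst_wr red hp2 hz
  | j + 1, G, _, _, _, hz => wst_rec hp2 j (G := Wr G) (Cf_sq' hz)

/-- the `p`-part of the order of `G` -/
def pp' (p : ℕ) (G : Type) : ℕ := p ^ (Nat.card G).factorization p

theorem pp'_wr (hp2 : p ≠ 2) (G : Type) [Group G] [Finite G] :
    pp' p (Wr G) = pp' p G ^ 2 := by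
  unfold pp'
  rw [Wr.card, Nat.factorization_mul (by norm_num) (pow_ne_zero _ Nat.card_pos.ne'),
    Nat.factorization_pow, ← pow_mul]
  congr 1
  have h1 : (Nat.factorization 2) p = 0 := by
    rw [Nat.Prime.factorization Nat.prime_two, Finsupp.single_eq_of_ne hp2]
  simp [h1, mul_comm]

theorem pp'_WrN (hp2 : p ≠ 2) : ∀ (j : ℕ) (G : Type) [Group G] [Finite G],
    pp' p (WrN j G) = pp' p G ^ 2 ^ j
  | 0, G, _, _ => by rw [pow_zero, pow_one]; rfl
  | j + 1, G, _, _ => by
    have h := pp'_WrN hp2 j (Wr G)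
    rw [pp'_wr hp2 G, ← pow_mul, ← pow_succ'] at h
    exact h

theorem one_le_pp' (hp : p.Prime) (G : Type) : 1 ≤ pp' p G := Nat.one_le_pow _ _ hp.pos

/-! ### size -/

theorem le_elem (hp2 : p ≠ 2) (G : Type) [Group G] [Finite G]
    (h : ∀ ε : ℝ, 0 < ε → ∃ K : ℝ, ∀ (j : ℕ) (B : (WrN j G → F) → F), IsBlock B →
      (numIrrBlock B : ℝ) ≤ K * (pp' p (WrN j G) : ℝ) ^ ε * numWts p red B)
    (z : G → F) (hz : IsClassFun z) : lst z ≤ wst red p z := by
  refine Pool.Agent.Q288.AP.le_of_approx (x := fun j => lst (sqN j z))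
    (y := fun j => wst red p (sqN j z)) (fun j => lst_rec hp2 j hz)
    (fun j => wst_rec red hp2 j hz) (S := fun j => (pp' p (WrN j G) : ℝ))
    (M := (pp' p G : ℝ)) (by exact_mod_cast one_le_pp' hp.out G) (fun j => Nat.cast_nonneg _)
    (fun j => by
      rw [pp'_WrN hp2]
      push_cast
      exact le_rfl) ?_
  intro ε hε
  obtain ⟨K, hK⟩ := h ε hε
  exact ⟨K, fun j => to_elem red (fun B hB => hK j B hB) (sqN j z) (sqN_class j hz)⟩

theorem le_elem' (hp2 : p ≠ 2) (G : Type) [Group G] [Finite G]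
    (h : ∀ ε : ℝ, 0 < ε → ∃ K : ℝ, ∀ (j : ℕ) (B : (WrN j G → F) → F), IsBlock B →
      (numWts p red B : ℝ) ≤ K * (pp' p (WrN j G) : ℝ) ^ ε * numIrrBlock B)
    (z : G → F) (hz : IsClassFun z) : wst red p z ≤ lst z := by
  refine Pool.Agent.Q288.AP.le_of_approx (y := fun j => lst (sqN j z))
    (x := fun j => wst red p (sqN j z)) (fun j => wst_rec red hp2 j hz)
    (fun j => lst_rec hp2 j hz) (S := fun j => (pp' p (WrN j G) : ℝ))
    (M := (pp' p G : ℝ)) (by exact_mod_cast one_le_pp' hp.out G) (fun j => Nat.cast_nonneg _)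
    (fun j => by
      rw [pp'_WrN hp2]
      push_cast
      exact le_rfl) ?_
  intro ε hε
  obtain ⟨K, hK⟩ := h ε hε
  exact ⟨K, fun j => to_elem' red (fun B hB => hK j B hB) (sqN j z) (sqN_class j hz)⟩

/-! ### parity -/

theorem dvd_levels (hp2 : p ≠ 2) : ∀ (a : ℕ) (G : Type) [Group G] [Finite G],
    (∀ j ≤ a, ∀ B : (WrN j G → F) → F, IsBlock B → numIrrBlock B ≡ numWts p red B [MOD 2]) →
    ∀ z : G → F, IsClassFun z → (2 : ℤ) ^ (a + 1) ∣ (lst z : ℤ) - wst red p z := by
  intro a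
  induction a with
  | zero =>
    intro G _ _ H z hz
    rw [zero_add, pow_one]
    exact Nat.modEq_iff_dvd.mp (to_elem_mod red (H 0 le_rfl) z hz).symm
  | succ a ih =>
    intro G _ _ H z hz
    have h3 := ih (Wr G) (fun j hj => H (j + 1) (by omega)) (sq z) (Cf_sq' hz)
    have e1 : 2 * (lst (sq z) : ℤ) = (lst z : ℤ) ^ 2 + 3 * lst z := by
      exact_mod_cast lst_wr (p := p) hp2 hz
    have e2 : 2 * (wst red p (sq z) : ℤ) = (wst red p z : ℤ) ^ 2 + 3 * wst red p z := by
      exact_mod_cast wst_wr red hp2 hz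
    exact step e1 e2 (ih G (fun j hj => H j (by omega)) z hz) h3

theorem card_irr_le (F : Type) [Field F] [IsAlgClosed F] (N : Type) [Group N] [Finite N] :
    Nat.card {φ : N → F // IsIrrTrace φ} ≤ Nat.card N := by
  have : Fintype N := Fintype.ofFinite N
  obtain ⟨h1, h2⟩ := Pool.Agent.Y914.NV.irr F N
  have : Fintype {φ : N → F // IsIrrTrace φ} := h1.fintype
  have h3 := LinearIndependent.fintype_card_le_finrank (R := F) (M := N → F) h2
  rw [Module.finrank_fintype_fun_eq_card] at h3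
  rw [Nat.card_eq_fintype_card, Nat.card_eq_fintype_card]
  exact h3

theorem lst_le (G : Type) [Group G] [Finite G] (z : G → F) : lst z ≤ Nat.card G := by
  have h1 : Finite {φ : G → F // IsIrrTrace φ} := (Pool.Agent.Y914.NV.irr F G).1.to_subtype
  refine le_trans ?_ (card_irr_le F G)
  unfold lst
  exact Nat.card_le_card_of_injective
    (fun φ : {φ : G → F // IsIrrTrace φ ∧ ∃ x, ∑ᶠ g : G, z g * φ (g * x) ≠ 0} =>
      (⟨φ.1, φ.2.1⟩ : {φ : G → F // IsIrrTrace φ}))
    (fun φ ψ h => by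
      apply Subtype.ext
      injection h)

theorem nws_le {G : Type} [Group G] [Finite G] (Q : Subgroup G) (z : G → F) :
    nws red p Q z ≤ Nat.card G := by
  have h1 : Finite {φ : Subgroup.normalizer (Q : Set G) → ℂ // IsIrrTrace φ} :=
    (Pool.Agent.Y914.NV.irr ℂ (Subgroup.normalizer (Q : Set G))).1.to_subtype
  refine le_trans (le_trans ?_ (card_irr_le ℂ (Subgroup.normalizer (Q : Set G))))
    (Subgroup.card_le_card_group _)
  unfold nws
  exact Nat.card_le_card_of_injective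
    (fun χ : {χ : Subgroup.normalizer (Q : Set G) → ℂ //
        IsWt p (Q.subgroupOf (Subgroup.normalizer (Q : Set G))) χ ∧
        centralValue red χ (fun x => z x) ≠ 0} =>
      (⟨χ.1, χ.2.1.irr⟩ : {φ : Subgroup.normalizer (Q : Set G) → ℂ // IsIrrTrace φ}))
    (fun φ ψ h => by
      apply Subtype.ext
      injection h)

theorem wst_le (G : Type) [Group G] [Finite G] {z : G → F} (hz : IsClassFun z) :
    wst red p z ≤ Nat.card G * Nat.card {Q : Subgroup G // IsPGroup p Q} := by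
  have f1 : Fintype {Q : Subgroup G // IsPGroup p Q} := Fintype.ofFinite _
  have h2 := card_mul_wst red p hz
  rw [finsum_eq_sum_of_fintype] at h2
  have h3 : ∑ Q : {Q : Subgroup G // IsPGroup p Q},
      Nat.card (Subgroup.normalizer (Q.1 : Set G)) * nws red p Q.1 z ≤
      ∑ Q : {Q : Subgroup G // IsPGroup p Q}, Nat.card G * Nat.card G :=
    Finset.sum_le_sum fun Q _ => Nat.mul_le_mul (Subgroup.card_le_card_group _)
      (nws_le red Q.1 z)
  rw [← h2, Finset.sum_const, Finset.card_univ, ← Nat.card_eq_fintype_card, smul_eq_mul] at h3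
  have h5 : 0 < Nat.card G := Nat.card_pos
  apply Nat.le_of_mul_le_mul_left (c := Nat.card G) _ h5
  rw [← mul_assoc, mul_comm (Nat.card G * Nat.card G)]
  exact h3

theorem eq_elem (hp2 : p ≠ 2) (G : Type) [Group G] [Finite G]
    (H : ∀ j : ℕ, 2 ^ j ≤ Nat.card G * Nat.card {Q : Subgroup G // IsPGroup p Q} →
      ∀ B : (WrN j G → F) → F, IsBlock B → numIrrBlock B ≡ numWts p red B [MOD 2])
    (z : G → F) (hz : IsClassFun z) : lst z = wst red p z := by
  set M := Nat.card G * Nat.card {Q : Subgroup G // IsPGroup p Q} with hM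
  have hne : Nonempty {Q : Subgroup G // IsPGroup p Q} := ⟨⟨⊥, IsPGroup.of_bot⟩⟩
  have hpos : 0 < Nat.card {Q : Subgroup G // IsPGroup p Q} := Nat.card_pos
  have hG : 0 < Nat.card G := Nat.card_pos
  have hM0 : 0 < M := Nat.mul_pos hG hpos
  set a := Nat.log 2 M with ha
  have h3 : ∀ j ≤ a, 2 ^ j ≤ M := fun j hj =>
    (Nat.pow_le_pow_right (by norm_num) hj).trans (Nat.pow_log_le_self 2 hM0.ne')
  have h4 := dvd_levels red hp2 a G (fun j hj => H j (h3 j hj)) z hz
  have h5 : M < 2 ^ (a + 1) := Nat.lt_pow_succ_log_self (by norm_num) _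
  have h6 : lst z ≤ M := (lst_le G z).trans (Nat.le_mul_of_pos_right _ hpos)
  have h7 : wst red p z ≤ M := wst_le red G hz
  have h8 : |(lst z : ℤ) - wst red p z| < 2 ^ (a + 1) := by
    have h9 : (M : ℤ) < 2 ^ (a + 1) := by exact_mod_cast h5
    rw [abs_lt]
    constructor <;> omega
  have h9 := Int.eq_zero_of_abs_lt_dvd h4 h8
  omega

/-! ### the criteria -/

/-- parity of finitely many wreath products decides for one group -/
theorem bawc_of_parity (hp2 : p ≠ 2) (G : Type) [Group G] [Finite G]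
    (H : ∀ j : ℕ, 2 ^ j ≤ Nat.card G * Nat.card {Q : Subgroup G // IsPGroup p Q} →
      ∀ B : (WrN j G → F) → F, IsBlock B → numIrrBlock B ≡ numWts p red B [MOD 2]) :
    BAWC p red G := by
  intro B hB
  obtain ⟨z, hz, h1, h2⟩ := of_elem (p := p) red hB
  have := eq_elem red hp2 G H z hz
  rw [← h1, this, h2]
  rfl

theorem closed_WrN (C : (G : Type) → Group G → Prop)
    (hC : ∀ (G : Type) [i : Group G] [Finite G], C G i → C (Wr G) inferInstance) :
    ∀ (j : ℕ) (G : Type) [i : Group G] [Finite G], C G i → C (WrN j G) (instGroupWrN j G) := by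
  intro j
  induction j with
  | zero =>
    intro G _ _ h
    exact h
  | succ j ih =>
    intro G _ _ h
    exact ih (Wr G) (hC G h)

theorem irr_le_one (hp2 : p ≠ 2) (G : Type) [Group G] [Finite G]
    (h : ∀ ε : ℝ, 0 < ε → ∃ K : ℝ, ∀ (j : ℕ) (B : (WrN j G → F) → F), IsBlock B →
      (numIrrBlock B : ℝ) ≤ K * (pp' p (WrN j G) : ℝ) ^ ε * numWts p red B)
    (B : (G → F) → F) (hB : IsBlock B) : numIrrBlock B ≤ numWts p red B := by
  obtain ⟨z, hz, h1, h2⟩ := of_elem (p := p) red hB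
  rw [← h1, ← h2]
  exact le_elem red hp2 G h z hz

theorem wts_le_one (hp2 : p ≠ 2) (G : Type) [Group G] [Finite G]
    (h : ∀ ε : ℝ, 0 < ε → ∃ K : ℝ, ∀ (j : ℕ) (B : (WrN j G → F) → F), IsBlock B →
      (numWts p red B : ℝ) ≤ K * (pp' p (WrN j G) : ℝ) ^ ε * numIrrBlock B)
    (B : (G → F) → F) (hB : IsBlock B) : numWts p red B ≤ numIrrBlock B := by
  obtain ⟨z, hz, h1, h2⟩ := of_elem (p := p) red hB
  rw [← h1, ← h2]
  exact le_elem' red hp2 G h z hz

theorem self_le {a b : ℕ} (G : Type) {ε : ℝ} (hε : 0 < ε) (h : a ≤ b) :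
    (a : ℝ) ≤ 1 * (pp' p G : ℝ) ^ ε * b := by
  have h1 : (1 : ℝ) ≤ (pp' p G : ℝ) ^ ε :=
    Real.one_le_rpow (by exact_mod_cast one_le_pp' hp.out G) hε.le
  have h2 : (a : ℝ) ≤ b := by exact_mod_cast h
  have h3 : (0 : ℝ) ≤ b := Nat.cast_nonneg b
  nlinarith

end

end Pool.Agent.Q149.WB
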