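import Pool.Agent.Q149.WA.Prod
import Pool.Agent.Y930.NV.Cen

/-!
# Reduced central characters of direct products and of wreath products with a group of order two
-/

set_option autoImplicit false
set_option linter.unusedSectionVars false

open scoped BigOperators Classical

noncomputable section

namespace Pool.Agent.Q149.WB

open Pool.Agent.Helper884.IC (IsIrrChar Irr mem_Irr)
open Pool.Agent.Q90.WR Pool.Agent.Q149.WA
open Pool.Agent.Y63.NV (centralValue redC IsClassFun)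
open Pool.Agent.Y63.AWC (IsIrreducibleCharacter)
open Pool.Agent.Y930.NV

variable {F : Type} [Field F] (red : integralClosure ℤ ℂ →+* F)

section gen

variable {K : Type} [Group K] [Fintype K]

/-- the central value of a combination of integer valued class functions -/
theorem centralValue_comb {χ : K → ℂ} (h : IsIrreducibleCharacter χ) {ι : Type} (s : Finset ι)
    (a : ι → F) (n : ι → K → ℤ) (hn : ∀ i ∈ s, Cf (n i)) (f : K → F)
    (hf : ∀ x, f x = ∑ i ∈ s, a i * (n i x : F)) :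
    centralValue red χ f = ∑ i ∈ s, a i * R red χ (n i) := by
  rw [centralValue_eq red h]
  have h1 : ∀ C : ConjClasses K, f C.out * R red χ (ind ℤ C) =
      ∑ i ∈ s, a i * ((n i C.out : F) * R red χ (ind ℤ C)) := by
    intro C
    rw [hf, Finset.sum_mul]
    exact Finset.sum_congr rfl fun i _ => by ring
  simp_rw [h1]
  rw [Finset.sum_comm]
  refine Finset.sum_congr rfl fun i hi => ?_
  rw [← Finset.mul_sum, ← R_expand red h (hn i hi)]

theorem ind_castF (C : ConjClasses K) (x : K) : ((ind ℤ C x : ℤ) : F) = ind F C x := by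
  unfold ind
  split_ifs <;> simp

theorem om_def (χ f : K → ℂ) : om χ f = (∑ g : K, f g * χ g) / χ 1 := rfl

end gen

section prod

variable {X Y : Type} [Group X] [Group Y] [Fintype X] [Fintype Y]

/-- the external product of two functions -/
def epA {A : Type} [Mul A] (f : X → A) (g : Y → A) (z : X × Y) : A := f z.1 * g z.2

theorem om_epA (θ : X → ℂ) (ψ : Y → ℂ) (f : X → ℂ) (g : Y → ℂ) :
    om (ep θ ψ) (epA f g) = om θ f * om ψ g := by
  rw [om_def, om_def, om_def, Fintype.sum_prod_type]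
  have h1 : ∑ x : X, ∑ y : Y, epA f g (x, y) * ep θ ψ (x, y) =
      (∑ x : X, f x * θ x) * ∑ y : Y, g y * ψ y := by
    rw [Finset.sum_mul_sum]
    refine Finset.sum_congr rfl fun x _ => Finset.sum_congr rfl fun y _ => ?_
    simp only [epA, ep]
    ring
  rw [h1]
  change _ / (θ 1 * ψ 1) = _
  rw [mul_div_mul_comm]

theorem R_epA {θ : X → ℂ} {ψ : Y → ℂ} (h1 : IsIrreducibleCharacter θ)
    (h2 : IsIrreducibleCharacter ψ) {m : X → ℤ} {n : Y → ℤ} (hm : Cf m) (hn : Cf n) :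
    R red (ep θ ψ) (epA m n) = R red θ m * R red ψ n := by
  unfold R
  have h3 : (fun g : X × Y => ((epA m n g : ℤ) : ℂ)) =
      epA (fun x => ((m x : ℤ) : ℂ)) (fun y => ((n y : ℤ) : ℂ)) := by
    funext g
    unfold epA
    push_cast
    rfl
  rw [h3, om_epA, redC_mul red (om_int h1 hm) (om_int h2 hn)]

theorem Cf_epA {A : Type} [Mul A] {m : X → A} {n : Y → A} (hm : Cf m) (hn : Cf n) :
    Cf (epA m n) := by
  rintro ⟨a, b⟩ ⟨c, d⟩
  simp only [epA, Prod.mk_mul_mk, Prod.inv_mk]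
  rw [hm, hn]

theorem cv_ep {θ : X → ℂ} {ψ : Y → ℂ} (h1 : IsIrreducibleCharacter θ)
    (h2 : IsIrreducibleCharacter ψ) {f : X → F} {g : Y → F} (hf : Cf f) (hg : Cf g) :
    centralValue red (ep θ ψ) (epA f g) = centralValue red θ f * centralValue red ψ g := by
  have h3 := centralValue_comb red (ep_irr h1 h2)
    (Finset.univ : Finset (ConjClasses X × ConjClasses Y))
    (fun t => f t.1.out * g t.2.out) (fun t => epA (ind ℤ t.1) (ind ℤ t.2))
    (fun t _ => Cf_epA (Cf_ind ℤ t.1) (Cf_ind ℤ t.2)) (epA f g) (by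
      rintro ⟨x, y⟩
      rw [Fintype.sum_prod_type]
      simp only [epA]
      rw [Cf_expand hf x, Cf_expand hg y, Finset.sum_mul_sum]
      refine Finset.sum_congr rfl fun C _ => Finset.sum_congr rfl fun D _ => ?_
      rw [Int.cast_mul, ind_castF, ind_castF]
      ring)
  rw [h3, centralValue_eq red h1, centralValue_eq red h2, Finset.sum_mul_sum,
    Fintype.sum_prod_type]
  refine Finset.sum_congr rfl fun C _ => Finset.sum_congr rfl fun D _ => ?_
  rw [R_epA red h1 h2 (Cf_ind ℤ C) (Cf_ind ℤ D)]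
  ring

end prod

section wr

variable {X : Type} [Group X] [Fintype X]

/-- the function `f ⊗ f` on the base -/
def sq {A : Type} [MulZeroClass A] (f : X → A) (x : Wr X) : A :=
  match x.s with
  | false => f x.a * f x.b
  | true => 0

/-- the symmetrised function `f ⊗ g` on the base -/
def sy {A : Type} [CommRing A] (f g : X → A) (x : Wr X) : A :=
  match x.s with
  | false => f x.a * g x.b + g x.a * f x.b
  | true => 0

theorem Cf_sy {A : Type} [CommRing A] {f g : X → A} (hf : Cf f) (hg : Cf g) : Cf (sy f g) := by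
  rintro ⟨a, b, s⟩ ⟨c, d, t⟩
  cases s <;> cases t
  · change f (a * c * a⁻¹) * g (b * d * b⁻¹) + g (a * c * a⁻¹) * f (b * d * b⁻¹) =
      f c * g d + g c * f d
    rw [hf, hg, hf, hg]
  · rfl
  · change f (a * d * a⁻¹) * g (b * c * b⁻¹) + g (a * d * a⁻¹) * f (b * c * b⁻¹) =
      f c * g d + g c * f d
    rw [hf, hg, hf, hg]
    ring
  · rfl

theorem Cf_sq {A : Type} [CommRing A] {f : X → A} (hf : Cf f) : Cf (sq f) := by
  rintro ⟨a, b, s⟩ ⟨c, d, t⟩
  cases s <;> cases t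
  · change f (a * c * a⁻¹) * f (b * d * b⁻¹) = f c * f d
    rw [hf, hf]
  · rfl
  · change f (a * d * a⁻¹) * f (b * c * b⁻¹) = f c * f d
    rw [hf, hf, mul_comm]
  · rfl

theorem om_ind2 {θ ψ : X → ℂ} (h1 : θ 1 ≠ 0) (h2 : ψ 1 ≠ 0) (f g : X → ℂ) :
    om (ind2 θ ψ) (sy f g) = om θ f * om ψ g + om ψ f * om θ g := by
  rw [om_def, om_def, om_def, om_def, om_def, Wr.sum_eq]
  have e1 : ∑ a : X, ∑ b : X, sy f g ⟨a, b, false⟩ * ind2 θ ψ ⟨a, b, false⟩ =
      2 * ((∑ a : X, f a * θ a) * (∑ b : X, g b * ψ b) +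
        (∑ a : X, f a * ψ a) * (∑ b : X, g b * θ b)) := by
    have h3 : ∀ a b : X, sy f g ⟨a, b, false⟩ * ind2 θ ψ ⟨a, b, false⟩ =
        ((f a * θ a) * (g b * ψ b) + (g a * ψ a) * (f b * θ b)) +
        ((f a * ψ a) * (g b * θ b) + (g a * θ a) * (f b * ψ b)) := by
      intro a b
      simp only [sy, ind2]
      ring
    simp_rw [h3, Finset.sum_add_distrib, ← Finset.mul_sum, ← Finset.sum_mul]
    ring
  have e2 : ∑ a : X, ∑ b : X, sy f g ⟨a, b, true⟩ * ind2 θ ψ ⟨a, b, true⟩ = 0 := by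
    simp [sy]
  have e3 : ind2 θ ψ 1 = 2 * (θ 1 * ψ 1) := by
    change θ 1 * ψ 1 + ψ 1 * θ 1 = _
    ring
  rw [e1, e2, e3, add_zero]
  field_simp

theorem om_ext2 {θ : X → ℂ} (h1 : θ 1 ≠ 0) (ε : ℂ) (f g : X → ℂ) :
    om (ext2 ε θ) (sy f g) = 2 * (om θ f * om θ g) := by
  rw [om_def, om_def, om_def, Wr.sum_eq]
  have e1 : ∑ a : X, ∑ b : X, sy f g ⟨a, b, false⟩ * ext2 ε θ ⟨a, b, false⟩ =
      2 * ((∑ a : X, f a * θ a) * (∑ b : X, g b * θ b)) := by
    have h3 : ∀ a b : X, sy f g ⟨a, b, false⟩ * ext2 ε θ ⟨a, b, false⟩ =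
        (f a * θ a) * (g b * θ b) + (g a * θ a) * (f b * θ b) := by
      intro a b
      simp only [sy, ext2]
      ring
    simp_rw [h3, Finset.sum_add_distrib, ← Finset.mul_sum, ← Finset.sum_mul]
    ring
  have e2 : ∑ a : X, ∑ b : X, sy f g ⟨a, b, true⟩ * ext2 ε θ ⟨a, b, true⟩ = 0 := by
    simp [sy]
  have e3 : ext2 ε θ 1 = θ 1 * θ 1 := rfl
  rw [e1, e2, e3, add_zero]
  field_simp

theorem sy_cast (m n : X → ℤ) : (fun x : Wr X => ((sy m n x : ℤ) : ℂ)) =
    sy (fun x => ((m x : ℤ) : ℂ)) (fun x => ((n x : ℤ) : ℂ)) := by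
  funext x
  obtain ⟨a, b, s⟩ := x
  cases s
  · simp only [sy]
    push_cast
    rfl
  · simp [sy]

theorem R_ind2 {θ ψ : X → ℂ} (h1 : IsIrreducibleCharacter θ) (h2 : IsIrreducibleCharacter ψ)
    {m n : X → ℤ} (hm : Cf m) (hn : Cf n) :
    R red (ind2 θ ψ) (sy m n) = R red θ m * R red ψ n + R red ψ m * R red θ n := by
  unfold R
  rw [sy_cast, om_ind2 (irr_one_ne h1) (irr_one_ne h2),
    redC_add red ((om_int h1 hm).mul (om_int h2 hn)) ((om_int h2 hm).mul (om_int h1 hn)),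
    redC_mul red (om_int h1 hm) (om_int h2 hn), redC_mul red (om_int h2 hm) (om_int h1 hn)]

theorem R_ext2 {θ : X → ℂ} (h1 : IsIrreducibleCharacter θ) (ε : ℂ)
    {m n : X → ℤ} (hm : Cf m) (hn : Cf n) :
    R red (ext2 ε θ) (sy m n) = 2 * (R red θ m * R red θ n) := by
  unfold R
  rw [sy_cast, om_ext2 (irr_one_ne h1)]
  have h2 : IsIntegral ℤ ((2 : ℤ) : ℂ) := int_intCast 2
  have h3 : (2 : ℂ) = ((2 : ℤ) : ℂ) := by norm_num
  rw [h3, redC_mul red h2 ((om_int h1 hm).mul (om_int h1 hn)),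
    redC_mul red (om_int h1 hm) (om_int h1 hn), redC_intCast]
  norm_num

theorem two_sq {f : X → F} (hf : Cf f) (x : Wr X) : 2 * sq f x =
    ∑ t : ConjClasses X × ConjClasses X, f t.1.out * f t.2.out *
      ((sy (ind ℤ t.1) (ind ℤ t.2) x : ℤ) : F) := by
  obtain ⟨a, b, s⟩ := x
  cases s
  · rw [Fintype.sum_prod_type]
    simp only [sq, sy]
    have e : ∀ C D : ConjClasses X, f C.out * f D.out *
        ((ind ℤ C a * ind ℤ D b + ind ℤ D a * ind ℤ C b : ℤ) : F) =
        (f C.out * ind F C a) * (f D.out * ind F D b) +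
          (f D.out * ind F D a) * (f C.out * ind F C b) := by
      intro C D
      push_cast
      rw [ind_castF, ind_castF, ind_castF, ind_castF]
      ring
    simp_rw [e, Finset.sum_add_distrib, ← Finset.mul_sum, ← Finset.sum_mul]
    rw [← Cf_expand hf a, ← Cf_expand hf b, ← Finset.mul_sum, ← Cf_expand hf b]
    ring
  · simp [sq, sy]

theorem cv_comb2 {χ : Wr X → ℂ} (h : IsIrreducibleCharacter χ) {f : X → F} (hf : Cf f) :
    2 * centralValue red χ (sq f) = ∑ t : ConjClasses X × ConjClasses X,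
      f t.1.out * f t.2.out * R red χ (sy (ind ℤ t.1) (ind ℤ t.2)) := by
  have h3 := centralValue_comb red h
    (Finset.univ : Finset (ConjClasses X × ConjClasses X))
    (fun t => f t.1.out * f t.2.out) (fun t => sy (ind ℤ t.1) (ind ℤ t.2))
    (fun t _ => Cf_sy (Cf_ind ℤ t.1) (Cf_ind ℤ t.2)) (fun x => 2 * sq f x)
    (fun x => two_sq hf x)
  refine Eq.trans ?_ h3
  rw [centralValue_eq red h, centralValue_eq red h, Finset.mul_sum]
  exact Finset.sum_congr rfl fun C _ => by ring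

theorem cv_ind {θ ψ : X → ℂ} (h2 : (2 : F) ≠ 0) (hθ : IsIrreducibleCharacter θ)
    (hψ : IsIrreducibleCharacter ψ) (hne : θ ≠ ψ) {f : X → F} (hf : Cf f) :
    centralValue red (ind2 θ ψ) (sq f) = centralValue red θ f * centralValue red ψ f := by
  apply mul_left_cancel₀ h2
  rw [cv_comb2 red (ind2_irr hθ hψ hne) hf, centralValue_eq red hθ, centralValue_eq red hψ,
    Fintype.sum_prod_type]
  have e : ∀ C D : ConjClasses X, f C.out * f D.out *
      R red (ind2 θ ψ) (sy (ind ℤ C) (ind ℤ D)) =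
      (f C.out * R red θ (ind ℤ C)) * (f D.out * R red ψ (ind ℤ D)) +
        (f C.out * R red ψ (ind ℤ C)) * (f D.out * R red θ (ind ℤ D)) := by
    intro C D
    rw [R_ind2 red hθ hψ (Cf_ind ℤ C) (Cf_ind ℤ D)]
    ring
  simp_rw [e, Finset.sum_add_distrib, ← Finset.mul_sum, ← Finset.sum_mul]
  ring

theorem cv_ext {θ : X → ℂ} (h2 : (2 : F) ≠ 0) (hθ : IsIrreducibleCharacter θ) {ε : ℂ}
    (hε : ε * ε = 1) {f : X → F} (hf : Cf f) :
    centralValue red (ext2 ε θ) (sq f) = centralValue red θ f * centralValue red θ f := by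
  apply mul_left_cancel₀ h2
  rw [cv_comb2 red (ext2_irr hθ hε) hf, centralValue_eq red hθ, Fintype.sum_prod_type]
  have e : ∀ C D : ConjClasses X, f C.out * f D.out *
      R red (ext2 ε θ) (sy (ind ℤ C) (ind ℤ D)) =
      2 * (f C.out * R red θ (ind ℤ C)) * (f D.out * R red θ (ind ℤ D)) := by
    intro C D
    rw [R_ext2 red hθ ε (Cf_ind ℤ C) (Cf_ind ℤ D)]
    ring
  simp_rw [e, ← Finset.mul_sum, ← Finset.sum_mul, ← Finset.mul_sum]
  ring

end wr

/-! ### counting -/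

section count

open Pool.Agent.Y63.AWC (DZ)

/-- defect zero and nonvanishing of the reduced central character at `f` -/
def Ok (p : ℕ) {K : Type} [Group K] (f : K → F) (χ : K → ℂ) : Prop :=
  DZ p χ ∧ centralValue red χ f ≠ 0

/-- the number of irreducible characters of defect zero whose reduced central character does not
vanish at `f` -/
def dzc (p : ℕ) (K : Type) [Group K] (f : K → F) : ℕ :=
  Nat.card {χ : K → ℂ // IsIrreducibleCharacter χ ∧ DZ p χ ∧ centralValue red χ f ≠ 0}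

theorem dzc_eq {p : ℕ} {K : Type} [Group K] [Fintype K] (f : K → F) :
    dzc red p K f =
      ((Irr K).filter fun χ => Ok red p f χ).card := by
  unfold dzc
  rw [← Fintype.card_coe, ← Nat.card_eq_fintype_card]
  refine Nat.card_congr (Equiv.subtypeEquivRight fun χ => ?_)
  rw [Finset.mem_filter, mem_Irr]
  rfl

theorem dzc_prod (p : ℕ) [Fact p.Prime] (X Y : Type) [Group X] [Group Y] [Finite X] [Finite Y]
    {f : X → F} {g : Y → F} (hf : Cf f) (hg : Cf g) :
    dzc red p (X × Y) (epA f g) = dzc red p X f * dzc red p Y g := by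
  have := Fintype.ofFinite X
  have := Fintype.ofFinite Y
  rw [dzc_eq, dzc_eq, dzc_eq, Irr_prod, Finset.filter_image,
    Finset.card_image_of_injOn, ← Finset.card_product]
  · congr 1
    ext ⟨θ, ψ⟩
    simp only [Finset.mem_filter, Finset.mem_product, mem_Irr, Ok]
    constructor
    · rintro ⟨⟨h1, h2⟩, h3, h4⟩
      rw [dz_ep h1 h2] at h3
      rw [cv_ep red h1 h2 hf hg] at h4
      exact ⟨⟨h1, h3.1, left_ne_zero_of_mul h4⟩, h2, h3.2, right_ne_zero_of_mul h4⟩
    · rintro ⟨⟨h1, h3, h5⟩, h2, h4, h6⟩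
      refine ⟨⟨h1, h2⟩, (dz_ep h1 h2).mpr ⟨h3, h4⟩, ?_⟩
      rw [cv_ep red h1 h2 hf hg]
      exact mul_ne_zero h5 h6
  · rintro ⟨θ, ψ⟩ h ⟨θ', ψ'⟩ h' he
    rw [Finset.mem_coe, Finset.mem_filter, Finset.mem_product, mem_Irr, mem_Irr] at h h'
    obtain ⟨e1, e2⟩ := ep_inj h.1.1 h.1.2 h'.1.1 h'.1.2 he
    exact Prod.ext e1 e2

theorem dzc_wr {p : ℕ} [hpf : Fact p.Prime] [CharP F p] (hp2 : p ≠ 2) (X : Type) [Group X]
    [Finite X] {f : X → F} (hf : Cf f) :
    2 * dzc red p (Wr X) (sq f) = dzc red p X f ^ 2 + 3 * dzc red p X f := by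
  have := Fintype.ofFinite X
  have hp := hpf.out
  have h20 : (2 : F) ≠ 0 := by
    intro h
    have h1 : ((2 : ℕ) : F) = 0 := by exact_mod_cast h
    rw [CharP.cast_eq_zero_iff F p] at h1
    exact hp2 ((Nat.prime_dvd_prime_iff_eq hp Nat.prime_two).mp h1)
  rw [dzc_eq, dzc_eq, count]
  set S := (Irr X).filter fun χ => Ok red p f χ with hS
  have e1 : ((Irr X).offDiag.filter fun t => Ok red p (sq f) (ind2 t.1 t.2)) = S.offDiag := by
    ext ⟨θ, ψ⟩
    simp only [hS, Finset.mem_filter, Finset.mem_offDiag, mem_Irr, Ok]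
    constructor
    · rintro ⟨⟨h1, h2, hne⟩, h3, h4⟩
      rw [dz_ind hp2 hp h1 h2] at h3
      rw [cv_ind red h20 h1 h2 hne hf] at h4
      exact ⟨⟨h1, h3.1, left_ne_zero_of_mul h4⟩, ⟨h2, h3.2, right_ne_zero_of_mul h4⟩, hne⟩
    · rintro ⟨⟨h1, h3, h5⟩, ⟨h2, h4, h6⟩, hne⟩
      refine ⟨⟨h1, h2, hne⟩, (dz_ind hp2 hp h1 h2).mpr ⟨h3, h4⟩, ?_⟩
      rw [cv_ind red h20 h1 h2 hne hf]
      exact mul_ne_zero h5 h6
  have e2 : ∀ ε : ℂ, ε * ε = 1 →
      ((Irr X).filter fun θ => Ok red p (sq f) (ext2 ε θ)) = S := by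
    intro ε hε
    apply Finset.filter_congr
    intro θ hθ
    unfold Ok
    rw [dz_ext hp2 hp (mem_Irr.mp hθ) ε, cv_ext red h20 (mem_Irr.mp hθ) hε hf, mul_self_ne_zero]
  rw [e1, e2 1 (by norm_num), e2 (-1) (by norm_num), Finset.offDiag_card]
  have : S.card ≤ S.card * S.card := Nat.le_mul_self _
  zify [this]
  ring

end count

end Pool.Agent.Q149.WB
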