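import Pool.Agent.Q149.WB.Cval
import Pool.Agent.Q149.WA.Wts
import Pool.Agent.Y63.NV.Infl
import Pool.Agent.Y286.NV.Fin

/-!
# Weights with given central values: `p`-subgroups of wreath products with a group of order two
-/

set_option autoImplicit false
set_option linter.unusedSectionVars false

open scoped BigOperators Classical

noncomputable section

namespace Pool.Agent.Q149.WB

open Pool.Agent.Q90.WR Pool.Agent.Q149.WA
open Pool.Agent.Y63.NV (centralValue IsClassFun IsWt deflate wtn)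
open Pool.Agent.Y63.AWC (IsIrreducibleCharacter DZ ConjugateSubgroups)
open Pool.Agent.Y930.NV (Cf irr_inflate inf)
open Pool.Agent.Y286.NV (isWt_comp centralValue_comp irr_class nE nE_coe mem_conj)

variable {F : Type} [Field F] (red : integralClosure ℤ ℂ →+* F)

/-- the number of characters of `N(Q)/Q` of `p`-defect zero whose reduced central character does
not vanish at `z` -/
def nws (p : ℕ) {Γ : Type} [Group Γ] (Q : Subgroup Γ) (z : Γ → F) : ℕ :=
  Nat.card {χ : Subgroup.normalizer (Q : Set Γ) → ℂ //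
    IsWt p (Q.subgroupOf (Subgroup.normalizer (Q : Set Γ))) χ ∧
    centralValue red χ (fun x => z x) ≠ 0}

/-- the sum over the fibres -/
def psh {N K : Type} [Group N] [Group K] (φ : N →* K) (z : N → F) : K → F :=
  fun y => ∑ᶠ x : N, if φ x = y then z x else 0

theorem psh_apply {N K : Type} [Group N] [Fintype N] [Group K] (φ : N →* K) (z : N → F) (y : K) :
    psh φ z y = ∑ x : N, if φ x = y then z x else 0 := finsum_eq_sum_of_fintype _

theorem Cf_psh {N K : Type} [Group N] [Finite N] [Group K] (φ : N →* K)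
    (hs : Function.Surjective φ) {z : N → F} (hz : Cf z) : Cf (psh φ z) := by
  intro k x
  have : Fintype N := Fintype.ofFinite N
  obtain ⟨w, rfl⟩ := hs k
  unfold psh
  rw [finsum_eq_sum_of_fintype, finsum_eq_sum_of_fintype]
  symm
  refine Fintype.sum_equiv (MulAut.conj w).toEquiv _ _ fun y => ?_
  change (if φ y = x then z y else 0) =
    if φ (w * y * w⁻¹) = φ w * x * (φ w)⁻¹ then z (w * y * w⁻¹) else 0
  rw [hz, map_mul, map_mul, map_inv]
  congr 1
  apply propext
  constructor
  · intro h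
    rw [h]
  · intro h
    exact mul_left_cancel (mul_right_cancel h)

theorem wts_eq {p : ℕ} [Fact p.Prime] {N : Type} [Group N] [Finite N] {Q : Subgroup N}
    {K : Type} [Group K] [Finite K] (φ : N →* K)
    (hs : Function.Surjective φ) (hker : φ.ker = Q) {f : N → F} (hf : IsClassFun f) :
    Nat.card {χ : N → ℂ // IsWt p Q χ ∧ centralValue red χ f ≠ 0} = dzc red p K (psh φ f) := by
  have hcard : Nat.card N = Nat.card K * Nat.card Q := by
    rw [← hker, ← Nat.card_congr (QuotientGroup.quotientKerEquivOfSurjective φ hs).toEquiv]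
    exact Subgroup.card_eq_card_quotient_mul_card_subgroup φ.ker
  have hK0 : Nat.card K ≠ 0 := Nat.card_pos.ne'
  have hQ0 : Nat.card Q ≠ 0 := Nat.card_pos.ne'
  unfold dzc
  symm
  refine Nat.card_congr (Equiv.ofBijective (fun χ => ⟨fun x => χ.1 (φ x), ⟨?_, ?_, ?_⟩, ?_⟩) ⟨?_, ?_⟩)
  · exact irr_inflate φ hs χ.2.1
  · intro q hq x
    have h1 : φ q = 1 := by
      rw [← MonoidHom.mem_ker, hker]
      exact hq
    change χ.1 (φ (q * x)) = χ.1 (φ x)
    rw [map_mul, h1, one_mul]
  · obtain ⟨n, h1, h2⟩ := χ.2.2.1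
    refine ⟨n, by rw [map_one]; exact h1, ?_⟩
    rw [hcard, Nat.factorization_mul hK0 hQ0, Finsupp.add_apply, h2]
  · have h1 := inf F red N K φ χ.1 f hs χ.2.1 hf
    rw [h1]
    exact χ.2.2.2
  · intro χ ψ h
    apply Subtype.ext
    funext k
    obtain ⟨x, rfl⟩ := hs k
    exact congrFun (congrArg Subtype.val h) x
  · rintro ⟨χ, hw, hne⟩
    have hnorm : Q.Normal := by
      rw [← hker]
      infer_instance
    obtain ⟨χ', h1, h2⟩ := deflate Q hw.irr hw.inflated
    let e : K ≃* N ⧸ Q :=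
      (QuotientGroup.quotientKerEquivOfSurjective φ hs).symm.trans
        (QuotientGroup.quotientMulEquivOfEq hker)
    have he : ∀ x : N, e (φ x) = (x : N ⧸ Q) := by
      intro x
      change (QuotientGroup.quotientMulEquivOfEq hker)
        ((QuotientGroup.quotientKerEquivOfSurjective φ hs).symm (φ x)) = _
      have h3 : (QuotientGroup.quotientKerEquivOfSurjective φ hs).symm (φ x) =
          ((x : N) : N ⧸ φ.ker) := by
        rw [MulEquiv.symm_apply_eq]
        rfl
      rw [h3]
      rfl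
    have h4 : (fun x : N => χ' (e (φ x))) = χ := by
      funext x
      rw [he, h2]
    have hirr : IsIrreducibleCharacter (fun k : K => χ' (e k)) :=
      Pool.Agent.Y63.AWC.irr_comp e h1
    refine ⟨⟨fun k => χ' (e k), hirr, ?_, ?_⟩, ?_⟩
    · obtain ⟨n, h5, h6⟩ := hw.defectZero
      refine ⟨n, ?_, ?_⟩
      · rw [← h5, ← h4]
        change χ' (e 1) = χ' (e (φ 1))
        rw [map_one φ]
      · rw [hcard, Nat.factorization_mul hK0 hQ0, Finsupp.add_apply] at h6
        omega
    · have h5 := inf F red N K φ (fun k => χ' (e k)) f hs hirr hf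
      change centralValue red (fun k => χ' (e k)) (fun y => ∑ᶠ x : N, if φ x = y then f x else 0) ≠ 0
      rw [← h5, h4]
      exact hne
    · exact Subtype.ext h4

theorem nws_eq {p : ℕ} [Fact p.Prime] {Γ : Type} [Group Γ] [Finite Γ] {Q : Subgroup Γ}
    {K : Type} [Group K] [Finite K] (φ : Subgroup.normalizer (Q : Set Γ) →* K)
    (hs : Function.Surjective φ)
    (hker : φ.ker = Q.subgroupOf (Subgroup.normalizer (Q : Set Γ))) {z : Γ → F}
    (hz : IsClassFun z) :
    nws red p Q z = dzc red p K (psh φ (fun x => z x)) :=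
  wts_eq red φ hs hker (fun g x => hz g x)

/-- the normalised form -/
theorem nws_mk {p : ℕ} [Fact p.Prime] {Γ : Type} [Group Γ] [Finite Γ] (Q : Subgroup Γ)
    {z : Γ → F} (hz : IsClassFun z) :
    nws red p Q z = dzc red p (Subgroup.normalizer (Q : Set Γ) ⧸
      Q.subgroupOf (Subgroup.normalizer (Q : Set Γ)))
      (psh (QuotientGroup.mk' (Q.subgroupOf (Subgroup.normalizer (Q : Set Γ))))
        (fun x => z x)) :=
  nws_eq red _ (QuotientGroup.mk'_surjective _) (QuotientGroup.ker_mk' _) hz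

/-- a group containing `Q` properly and normalised by the normalizer of `Q` -/
theorem nws_zero {Γ : Type} [Group Γ] [Finite Γ] {p : ℕ} [Fact p.Prime] {Q D : Subgroup Γ}
    (hD : IsPGroup p D) (hle : Q ≤ D) (hne : Q ≠ D)
    (hN : Subgroup.normalizer (Q : Set Γ) ≤ Subgroup.normalizer (D : Set Γ)) (z : Γ → F) :
    nws red p Q z = 0 := by
  have hnil : Group.IsNilpotent D := hD.isNilpotent
  have hlt : Q.subgroupOf D < ⊤ := by
    rw [lt_top_iff_ne_top, Ne, Subgroup.subgroupOf_eq_top]
    intro h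
    exact hne (le_antisymm hle h)
  obtain ⟨x, hx1, hx2⟩ := SetLike.exists_of_lt
    (Group.normalizerCondition_of_isNilpotent (Q.subgroupOf D) hlt)
  rw [Subgroup.mem_normalizer_iff] at hx1
  have hxN : (x : Γ) ∈ Subgroup.normalizer (Q : Set Γ) := by
    rw [Subgroup.mem_normalizer_iff]
    intro h
    constructor
    · intro hh
      exact (hx1 ⟨h, hle hh⟩).1 hh
    · intro hh
      have h3 : h ∈ D := by
        have h4 : h = (x : Γ)⁻¹ * ((x : Γ) * h * (x : Γ)⁻¹) * (x : Γ) := by group
        rw [h4]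
        exact D.mul_mem (D.mul_mem (D.inv_mem x.2) (hle hh)) x.2
      exact (hx1 ⟨h, h3⟩).2 hh
  set N := Subgroup.normalizer (Q : Set Γ) with hNdef
  unfold nws
  rw [Nat.card_eq_zero]
  left
  constructor
  rintro ⟨χ, hw, -⟩
  refine wtn p N (Q.subgroupOf N) (D.subgroupOf N) χ
    ⟨fun n hn g => (Subgroup.mem_normalizer_iff.1 g.2 n).1 hn⟩
    ⟨fun n hn g => (Subgroup.mem_normalizer_iff.1 (hN g.2) n).1 hn⟩
    (hD.comap_of_injective N.subtype Subtype.val_injective) ?_ hw
  rw [SetLike.lt_iff_le_and_exists]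
  exact ⟨fun y hy => hle hy, ⟨x, hxN⟩, x.2, hx2⟩

theorem nws_conj {Γ : Type} [Group Γ] [Finite Γ] (p : ℕ) {z : Γ → F} (hz : IsClassFun z)
    (g : Γ) (Q : Subgroup Γ) :
    nws red p (Q.map (MulAut.conj g).toMonoidHom) z = nws red p Q z := by
  have hQ : ∀ x : Subgroup.normalizer (Q : Set Γ),
      x ∈ Q.subgroupOf (Subgroup.normalizer (Q : Set Γ)) ↔
      nE g Q x ∈ (Q.map (MulAut.conj g).toMonoidHom).subgroupOf
        (Subgroup.normalizer ((Q.map (MulAut.conj g).toMonoidHom : Subgroup Γ) : Set Γ)) := by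
    intro x
    rw [Subgroup.mem_subgroupOf, Subgroup.mem_subgroupOf, nE_coe, mem_conj]
  have hQ' : ∀ x, x ∈ (Q.map (MulAut.conj g).toMonoidHom).subgroupOf
        (Subgroup.normalizer ((Q.map (MulAut.conj g).toMonoidHom : Subgroup Γ) : Set Γ)) ↔
      (nE g Q).symm x ∈ Q.subgroupOf (Subgroup.normalizer (Q : Set Γ)) := by
    intro x
    rw [hQ, (nE g Q).apply_symm_apply]
  have hres : (fun x : Subgroup.normalizer (Q : Set Γ) =>
      (fun y : Subgroup.normalizer ((Q.map (MulAut.conj g).toMonoidHom : Subgroup Γ) : Set Γ) =>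
        z y) (nE g Q x)) = fun x : Subgroup.normalizer (Q : Set Γ) => z x := by
    funext x
    change z (nE g Q x : Subgroup.normalizer _) = z x
    rw [nE_coe]
    exact hz g x
  have hval : ∀ (χ : Subgroup.normalizer
      ((Q.map (MulAut.conj g).toMonoidHom : Subgroup Γ) : Set Γ) → ℂ), IsIrreducibleCharacter χ →
      centralValue red (fun x => χ (nE g Q x)) (fun x => z x) =
        centralValue red χ (fun x => z x) := by
    intro χ hχ
    rw [← centralValue_comp red (nE g Q) χ (irr_class hχ) (fun x => z x) (fun a x => hz a x),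
      hres]
  unfold nws
  refine Nat.card_congr
    { toFun := fun χ => ⟨fun x => χ.1 (nE g Q x), isWt_comp (nE g Q) hQ χ.2.1, ?_⟩
      invFun := fun χ => ⟨fun x => χ.1 ((nE g Q).symm x), isWt_comp (nE g Q).symm hQ' χ.2.1, ?_⟩
      left_inv := ?_
      right_inv := ?_ }
  · rw [hval χ.1 χ.2.1.irr]
    exact χ.2.2
  · have h1 := hval (fun x => χ.1 ((nE g Q).symm x)) (Pool.Agent.Y63.AWC.irr_comp (nE g Q).symm χ.2.1.irr)
    have h2 : (fun x => (fun x => χ.1 ((nE g Q).symm x)) (nE g Q x)) = χ.1 := by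
      funext x
      change χ.1 ((nE g Q).symm (nE g Q x)) = χ.1 x
      rw [(nE g Q).symm_apply_apply]
    rw [h2] at h1
    rw [← h1]
    exact χ.2.2
  · intro χ
    apply Subtype.ext
    funext x
    change χ.1 (nE g Q ((nE g Q).symm x)) = χ.1 x
    rw [(nE g Q).apply_symm_apply]
  · intro χ
    apply Subtype.ext
    funext x
    change χ.1 ((nE g Q).symm (nE g Q x)) = χ.1 x
    rw [(nE g Q).symm_apply_apply]

section wr

variable {G : Type} [Group G] [Finite G] {p : ℕ} [hp : Fact p.Prime]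

theorem nws_ps {A B : Subgroup G} (hnc : ¬ ConjugateSubgroups A B) {z : G → F}
    (hz : IsClassFun z) :
    nws red p (ps A B) (sq z) = nws red p A z * nws red p B z := by
  have := Fintype.ofFinite G
  set NA := Subgroup.normalizer (A : Set G) with hNA
  set NB := Subgroup.normalizer (B : Set G) with hNB
  set N := Subgroup.normalizer (ps A B : Set (Wr G)) with hN
  let φ : N →* (NA ⧸ A.subgroupOf NA) × (NB ⧸ B.subgroupOf NB) :=
    ((QuotientGroup.mk' (A.subgroupOf NA)).prodMap (QuotientGroup.mk' (B.subgroupOf NB))).comp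
      (normPs hnc).toMonoidHom
  have hφ : Function.Surjective φ := by
    rintro ⟨x, y⟩
    obtain ⟨a, rfl⟩ := QuotientGroup.mk'_surjective _ x
    obtain ⟨b, rfl⟩ := QuotientGroup.mk'_surjective _ y
    exact ⟨(normPs hnc).symm (a, b), rfl⟩
  have hker : φ.ker = (ps A B).subgroupOf N := by
    ext x
    have h0 := ((mem_normalizer_ps hnc).mp x.2).1
    rw [MonoidHom.mem_ker, Subgroup.mem_subgroupOf]
    constructor
    · intro h
      have h1 := congrArg Prod.fst h
      have h2 := congrArg Prod.snd h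
      have h3 := (QuotientGroup.eq_one_iff _).mp h1
      have h4 := (QuotientGroup.eq_one_iff _).mp h2
      exact ⟨h0, h3, h4⟩
    · rintro ⟨_, h3, h4⟩
      refine Prod.ext ?_ ?_
      · exact (QuotientGroup.eq_one_iff _).mpr h3
      · exact (QuotientGroup.eq_one_iff _).mpr h4
  have hA : Cf (psh (QuotientGroup.mk' (A.subgroupOf NA)) (fun x : NA => z x)) :=
    Cf_psh _ (QuotientGroup.mk'_surjective _) (fun g x => hz g x)
  have hB : Cf (psh (QuotientGroup.mk' (B.subgroupOf NB)) (fun x : NB => z x)) :=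
    Cf_psh _ (QuotientGroup.mk'_surjective _) (fun g x => hz g x)
  have hA' : nws red p A z = dzc red p (NA ⧸ A.subgroupOf NA)
    (psh (QuotientGroup.mk' (A.subgroupOf NA)) (fun x : NA => z x)) := nws_mk red A hz
  have hB' : nws red p B z = dzc red p (NB ⧸ B.subgroupOf NB)
    (psh (QuotientGroup.mk' (B.subgroupOf NB)) (fun x : NB => z x)) := nws_mk red B hz
  rw [nws_eq red φ hφ hker (Cf_sq (f := z) hz), hA', hB', ← dzc_prod red p _ _ hA hB]
  congr 1
  funext k
  have f1 : Fintype N := Fintype.ofFinite _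
  have f2 : Fintype NA := Fintype.ofFinite _
  have f3 : Fintype NB := Fintype.ofFinite _
  unfold epA
  rw [psh_apply, psh_apply, psh_apply, Finset.sum_mul_sum, ← Fintype.sum_prod_type']
  refine Fintype.sum_equiv (normPs hnc).toEquiv _ _ ?_
  rintro ⟨⟨a, b, s⟩, hx⟩
  have h0 := ((mem_normalizer_ps hnc).mp hx).1
  simp only at h0
  subst h0
  obtain ⟨k1, k2⟩ := k
  obtain ⟨-, ha, hb⟩ := (mem_normalizer_ps hnc).mp hx
  have hL : φ ⟨⟨a, b, false⟩, hx⟩ = (k1, k2) ↔
      QuotientGroup.mk' (A.subgroupOf NA) ⟨a, ha⟩ = k1 ∧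
        QuotientGroup.mk' (B.subgroupOf NB) ⟨b, hb⟩ = k2 :=
    ⟨fun h => ⟨congrArg Prod.fst h, congrArg Prod.snd h⟩, fun h => Prod.ext h.1 h.2⟩
  have e1 : (normPs hnc).toEquiv ⟨⟨a, b, false⟩, hx⟩ = (⟨a, ha⟩, ⟨b, hb⟩) := rfl
  rw [e1]
  dsimp only
  by_cases h1 : QuotientGroup.mk' (A.subgroupOf NA) ⟨a, ha⟩ = k1
  · by_cases h2 : QuotientGroup.mk' (B.subgroupOf NB) ⟨b, hb⟩ = k2
    · rw [if_pos (hL.mpr ⟨h1, h2⟩), if_pos h1, if_pos h2]
      rfl
    · rw [if_neg (fun h => h2 (hL.mp h).2), if_neg h2, mul_zero]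
  · rw [if_neg (fun h => h1 (hL.mp h).1), if_neg h1, zero_mul]

theorem nws_dbl [CharP F p] (hp2 : p ≠ 2) (A : Subgroup G) {z : G → F} (hz : IsClassFun z) :
    2 * nws red p (dbl A) (sq z) = nws red p A z ^ 2 + 3 * nws red p A z := by
  have := Fintype.ofFinite G
  set NA := Subgroup.normalizer (A : Set G) with hNA
  set N := Subgroup.normalizer (dbl A : Set (Wr G)) with hN
  let φ : N →* Wr (NA ⧸ A.subgroupOf NA) :=
    (wrMap (QuotientGroup.mk' (A.subgroupOf NA))).comp (normEquiv A).toMonoidHom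
  have hφ : Function.Surjective φ := by
    rintro ⟨x, y, s⟩
    obtain ⟨a, rfl⟩ := QuotientGroup.mk'_surjective _ x
    obtain ⟨b, rfl⟩ := QuotientGroup.mk'_surjective _ y
    exact ⟨(normEquiv A).symm ⟨a, b, s⟩, rfl⟩
  have hker : φ.ker = (dbl A).subgroupOf N := by
    ext x
    rw [MonoidHom.mem_ker, Subgroup.mem_subgroupOf]
    constructor
    · intro h
      have h1 := congrArg Wr.a h
      have h2 := congrArg Wr.b h
      have h0 : (x : Wr G).s = false := congrArg Wr.s h
      have h3 := (QuotientGroup.eq_one_iff _).mp h1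
      have h4 := (QuotientGroup.eq_one_iff _).mp h2
      exact ⟨h0, h3, h4⟩
    · rintro ⟨h0, h3, h4⟩
      refine Wr.ext ?_ ?_ ?_
      · exact (QuotientGroup.eq_one_iff _).mpr h3
      · exact (QuotientGroup.eq_one_iff _).mpr h4
      · exact h0
  have hA : Cf (psh (QuotientGroup.mk' (A.subgroupOf NA)) (fun x : NA => z x)) :=
    Cf_psh _ (QuotientGroup.mk'_surjective _) (fun g x => hz g x)
  have hA' : nws red p A z = dzc red p (NA ⧸ A.subgroupOf NA)
    (psh (QuotientGroup.mk' (A.subgroupOf NA)) (fun x : NA => z x)) := nws_mk red A hz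
  rw [nws_eq red φ hφ hker (Cf_sq (f := z) hz), hA', ← dzc_wr red hp2 _ hA]
  congr 2
  funext k
  have f1 : Fintype N := Fintype.ofFinite _
  have f2 : Fintype NA := Fintype.ofFinite _
  obtain ⟨k1, k2, s⟩ := k
  have e1 : psh φ (fun x => sq z x) (⟨k1, k2, s⟩ : Wr (NA ⧸ A.subgroupOf NA)) =
      ∑ y : Wr NA, if wrMap (QuotientGroup.mk' (A.subgroupOf NA)) y = ⟨k1, k2, s⟩ then
        sq (fun x : NA => z x) y else 0 := by
    rw [psh_apply]
    refine Fintype.sum_equiv (normEquiv A).toEquiv _ _ ?_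
    rintro ⟨⟨a, b, t⟩, hx⟩
    cases t <;> rfl
  rw [e1, Wr.sum_eq]
  cases s
  · have e2 : ∑ a : NA, ∑ b : NA, (if wrMap (QuotientGroup.mk' (A.subgroupOf NA)) ⟨a, b, true⟩ =
        ⟨k1, k2, false⟩ then sq (fun x : NA => z x) ⟨a, b, true⟩ else 0) = 0 := by
      refine Finset.sum_eq_zero fun a _ => Finset.sum_eq_zero fun b _ => ?_
      split_ifs <;> rfl
    rw [e2, add_zero]
    change _ = psh _ _ k1 * psh _ _ k2
    rw [psh_apply, psh_apply, Finset.sum_mul_sum]
    refine Finset.sum_congr rfl fun a _ => Finset.sum_congr rfl fun b _ => ?_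
    have hL : wrMap (QuotientGroup.mk' (A.subgroupOf NA)) ⟨a, b, false⟩ = ⟨k1, k2, false⟩ ↔
        QuotientGroup.mk' (A.subgroupOf NA) a = k1 ∧
          QuotientGroup.mk' (A.subgroupOf NA) b = k2 :=
      ⟨fun h => ⟨congrArg Wr.a h, congrArg Wr.b h⟩, fun h => Wr.ext h.1 h.2 rfl⟩
    by_cases h1 : QuotientGroup.mk' (A.subgroupOf NA) a = k1
    · by_cases h2 : QuotientGroup.mk' (A.subgroupOf NA) b = k2
      · rw [if_pos (hL.mpr ⟨h1, h2⟩), if_pos h1, if_pos h2]
        rfl
      · rw [if_neg (fun h => h2 (hL.mp h).2), if_neg h2, mul_zero]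
    · rw [if_neg (fun h => h1 (hL.mp h).1), if_neg h1, zero_mul]
  · have e2 : ∑ a : NA, ∑ b : NA, (if wrMap (QuotientGroup.mk' (A.subgroupOf NA)) ⟨a, b, false⟩ =
        ⟨k1, k2, true⟩ then sq (fun x : NA => z x) ⟨a, b, false⟩ else 0) = 0 := by
      refine Finset.sum_eq_zero fun a _ => Finset.sum_eq_zero fun b _ => ?_
      rw [if_neg]
      intro h
      exact Bool.false_ne_true (congrArg Wr.s h)
    have e3 : ∑ a : NA, ∑ b : NA, (if wrMap (QuotientGroup.mk' (A.subgroupOf NA)) ⟨a, b, true⟩ =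
        ⟨k1, k2, true⟩ then sq (fun x : NA => z x) ⟨a, b, true⟩ else 0) = 0 := by
      refine Finset.sum_eq_zero fun a _ => Finset.sum_eq_zero fun b _ => ?_
      split_ifs <;> rfl
    rw [e2, e3, add_zero]
    rfl

/-- the contribution of `A × B` -/
theorem contribz [CharP F p] (hp2 : p ≠ 2) (A B : Subgroup G) {z : G → F} (hz : IsClassFun z) :
    Nat.card (Subgroup.normalizer (ps A B : Set (Wr G))) * nws red p (ps A B) (sq z) =
      (Nat.card (Subgroup.normalizer (A : Set G)) * nws red p A z) *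
        (Nat.card (Subgroup.normalizer (B : Set G)) * nws red p B z) +
      3 * (Nat.card (Subgroup.normalizer (A : Set G)) * nws red p A z) *
        (if ConjugateSubgroups A B then Nat.card (Subgroup.normalizer (A : Set G)) else 0) := by
  have := Fintype.ofFinite G
  by_cases h : ConjugateSubgroups A B
  · rw [if_pos h]
    obtain ⟨g, rfl⟩ := h
    rw [ps_conj, card_normalizer_map, nws_conj red p (Cf_sq (f := z) hz), card_norm_dbl,
      card_normalizer_map, nws_conj red p hz]
    have h1 := nws_dbl red hp2 (p := p) A hz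
    calc 2 * Nat.card (Subgroup.normalizer (A : Set G)) ^ 2 * nws red p (dbl A) (sq z) =
        Nat.card (Subgroup.normalizer (A : Set G)) ^ 2 * (2 * nws red p (dbl A) (sq z)) := by ring
      _ = _ := by
        rw [h1]
        ring
  · rw [if_neg h, card_norm_ps h, nws_ps red h hz]
    ring

end wr

end Pool.Agent.Q149.WB
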