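import Pool.Agent.Q149.WB.Cval
import Pool.Agent.Q149.WA.Reg
import Pool.Agent.Y63.NV.Bawc
import Pool.Agent.Y705.NV.Ppt

/-!
# Irreducible traces of wreath products with a group of order two
-/

set_option autoImplicit false
set_option linter.unusedSectionVars false

open scoped BigOperators Classical

noncomputable section

namespace Pool.Agent.Q149.WB

open Pool.Agent.Q90.WR Pool.Agent.Q149.WA
open Pool.Agent.Y63.NV (IsIrrTrace IsClassFun pp pexp span' schur' lreg' invReg_top pgroup_top Lnum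
  IsInvUnder)
open Pool.Agent.Y63.AWC (numRegularClasses)
open Pool.Agent.Y705.NV (trace_pp pow_pp)
open Pool.Agent.Y930.NV (Cf)

variable {F : Type} [Field F]

/-! ### linear algebra -/

theorem rank_eig {E ι : Type} [AddCommGroup E] [Module F E] [Finite ι] (T : E →ₗ[F] E)
    (b : ι → E) (hb : LinearIndependent F b) (c : ι → F) (h : ∀ i, T (b i) = c i • b i) :
    Module.finrank F ((Submodule.span F (Set.range b)).map T) = Nat.card {i // c i ≠ 0} := by
  have : Fintype ι := Fintype.ofFinite ι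
  have h1 : (Submodule.span F (Set.range b)).map T =
      Submodule.span F (Set.range (fun i : {i // c i ≠ 0} => b i.1)) := by
    rw [Submodule.map_span]
    apply le_antisymm
    · rw [Submodule.span_le]
      rintro _ ⟨_, ⟨i, rfl⟩, rfl⟩
      rw [SetLike.mem_coe, h]
      by_cases hc : c i = 0
      · rw [hc, zero_smul]
        exact Submodule.zero_mem _
      · exact Submodule.smul_mem _ _ (Submodule.subset_span ⟨⟨i, hc⟩, rfl⟩)
    · rw [Submodule.span_le]
      rintro _ ⟨⟨i, hc⟩, rfl⟩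
      have h2 : b i = (c i)⁻¹ • T (b i) := by
        rw [h, smul_smul, inv_mul_cancel₀ hc, one_smul]
      change b i ∈ _
      rw [h2]
      exact Submodule.smul_mem _ _ (Submodule.subset_span ⟨_, ⟨i, rfl⟩, rfl⟩)
  have h5 : LinearIndependent F (fun i : {i // c i ≠ 0} => b i.1) :=
    hb.comp _ Subtype.val_injective
  rw [h1, finrank_span_eq_card h5, Nat.card_eq_fintype_card]

theorem card_le_pairs {n : ℕ} (S : Finset (Fin n)) :
    2 * (Finset.univ.filter fun t : Fin n × Fin n => t.1 ≤ t.2 ∧ t.1 ∈ S ∧ t.2 ∈ S).card =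
      S.card ^ 2 + S.card := by
  have h1 : (Finset.univ.filter fun t : Fin n × Fin n => t.1 ≤ t.2 ∧ t.1 ∈ S ∧ t.2 ∈ S).card =
      (Finset.univ.filter fun t : Fin n × Fin n => t.2 ≤ t.1 ∧ t.1 ∈ S ∧ t.2 ∈ S).card := by
    refine Finset.card_bij (fun t _ => (t.2, t.1)) ?_ ?_ ?_
    · intro t ht
      rw [Finset.mem_filter] at ht ⊢
      exact ⟨Finset.mem_univ _, ht.2.1, ht.2.2.2, ht.2.2.1⟩
    · rintro ⟨a, b⟩ _ ⟨c, d⟩ _ h
      rw [Prod.mk.injEq] at h
      exact Prod.ext h.2 h.1
    · rintro ⟨a, b⟩ ht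
      rw [Finset.mem_filter] at ht
      exact ⟨(b, a), by
        rw [Finset.mem_filter]
        exact ⟨Finset.mem_univ _, ht.2.1, ht.2.2.2, ht.2.2.1⟩, rfl⟩
  have h2 := Finset.card_union_add_card_inter
    (Finset.univ.filter fun t : Fin n × Fin n => t.1 ≤ t.2 ∧ t.1 ∈ S ∧ t.2 ∈ S)
    (Finset.univ.filter fun t : Fin n × Fin n => t.2 ≤ t.1 ∧ t.1 ∈ S ∧ t.2 ∈ S)
  have h3 : (Finset.univ.filter fun t : Fin n × Fin n => t.1 ≤ t.2 ∧ t.1 ∈ S ∧ t.2 ∈ S) ∪
      (Finset.univ.filter fun t : Fin n × Fin n => t.2 ≤ t.1 ∧ t.1 ∈ S ∧ t.2 ∈ S) = S ×ˢ S := by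
    ext ⟨a, b⟩
    simp only [Finset.mem_union, Finset.mem_filter, Finset.mem_univ, true_and,
      Finset.mem_product]
    rcases le_total a b with h | h <;> simp [h]
  have h4 : ((Finset.univ.filter fun t : Fin n × Fin n => t.1 ≤ t.2 ∧ t.1 ∈ S ∧ t.2 ∈ S) ∩
      (Finset.univ.filter fun t : Fin n × Fin n => t.2 ≤ t.1 ∧ t.1 ∈ S ∧ t.2 ∈ S)).card =
      S.card := by
    symm
    refine Finset.card_bij (fun a _ => (a, a)) ?_ ?_ ?_
    · intro a ha
      simp [ha]
    · intro a _ b _ h
      exact (Prod.mk.inj h).1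
    · rintro ⟨a, b⟩ ht
      simp only [Finset.mem_inter, Finset.mem_filter, Finset.mem_univ, true_and] at ht
      have : a = b := le_antisymm ht.1.1 ht.2.1
      subst this
      exact ⟨a, ht.1.2.1, rfl⟩
  rw [h3, h4, ← h1, Finset.card_product] at h2
  rw [two_mul, ← h2, pow_two]

/-! ### the operators -/

section op

variable {G : Type} [Group G] [Finite G]

/-- the action of `z` on functions -/
def To (z : G → F) : (G → F) →ₗ[F] (G → F) where
  toFun f x := ∑ᶠ g : G, z g * f (g * x)
  map_add' a b := by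
    funext x
    simp only [Pi.add_apply, mul_add]
    exact finsum_add_distrib (Set.toFinite _) (Set.toFinite _)
  map_smul' c a := by
    funext x
    simp only [Pi.smul_apply, smul_eq_mul, RingHom.id_apply]
    rw [← smul_eq_mul, smul_finsum' c (Set.toFinite _)]
    refine finsum_congr fun g => ?_
    rw [smul_eq_mul]
    ring

theorem To_apply (z f : G → F) (x : G) : To z f x = ∑ᶠ g : G, z g * f (g * x) := rfl

/-- the function on the coset outside the base -/
def sw (f : G → F) (x : Wr G) : F :=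
  match x.s with
  | false => 0
  | true => f (x.a * x.b)

theorem class_comm {f : G → F} (hf : IsClassFun f) (a b : G) : f (a * b) = f (b * a) := by
  have h := hf b (a * b)
  rw [← h]
  congr 1
  group

theorem Cf_sw {f : G → F} (hf : IsClassFun f) : IsClassFun (sw f) := by
  rintro ⟨c, d, t⟩ ⟨a, b, s⟩
  cases t <;> cases s
  · rfl
  · change f ((c * a * d⁻¹) * (d * b * c⁻¹)) = f (a * b)
    have h : (c * a * d⁻¹) * (d * b * c⁻¹) = c * (a * b) * c⁻¹ := by group
    rw [h, hf]
  · rfl
  · change f ((c * b * d⁻¹) * (d * a * c⁻¹)) = f (a * b)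
    have h : (c * b * d⁻¹) * (d * a * c⁻¹) = c * (b * a) * c⁻¹ := by group
    rw [h, hf, class_comm hf]

theorem pow_false (a b : G) (k : ℕ) : (⟨a, b, false⟩ : Wr G) ^ k = ⟨a ^ k, b ^ k, false⟩ := by
  induction k with
  | zero => simp [Wr.one_def]
  | succ k ih => rw [pow_succ, ih, Wr.mk_false_mul, pow_succ, pow_succ]

theorem pow_true (a b : G) (j : ℕ) :
    (⟨a, b, true⟩ : Wr G) ^ (2 * j + 1) = ⟨a * (b * a) ^ j, b * (a * b) ^ j, true⟩ := by
  rw [pow_succ', pow_mul]
  have h : (⟨a, b, true⟩ : Wr G) ^ 2 = ⟨a * b, b * a, false⟩ := by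
    rw [pow_two, mul_tt]
  rw [h, pow_false, mul_tf]

theorem swap_pow (a b : G) (j : ℕ) : a * (b * a) ^ j = (a * b) ^ j * a := by
  induction j with
  | zero => simp
  | succ j ih =>
    rw [pow_succ, ← mul_assoc, ih, pow_succ]
    group

variable (F) in
/-- functions which only depend on the `p'`-part, in the form needed for the wreath product -/
def Reg (p : ℕ) (f : G → F) : Prop :=
  ∀ (x : G) (e k : ℕ), (x ^ e) ^ p ^ k = x ^ p ^ k → f (x ^ e) = f x

theorem irr_reg (p : ℕ) [hp : Fact p.Prime] [CharP F p] {φ : G → F} (h : IsIrrTrace φ) :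
    Reg F p φ := by
  obtain ⟨V, _, _, _, ρ, -, rfl⟩ := h
  intro x e k hx
  unfold Representation.character
  rcases subsingleton_or_nontrivial V with hV | hV
  · rw [Subsingleton.elim (ρ (x ^ e)) (ρ x)]
  have : CharP (Module.End F V) p :=
    charP_of_injective_algebraMap (FaithfulSMul.algebraMap_injective F (Module.End F V)) p
  have hc : Commute (ρ x) (ρ (x ^ e)) := by
    rw [map_pow]
    exact Commute.pow_right (Commute.refl _) _
  have hnil : IsNilpotent (ρ x - ρ (x ^ e)) := by
    refine ⟨p ^ k, ?_⟩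
    rw [sub_pow_char_pow_of_commute _ _ hc, ← map_pow, ← map_pow, hx, sub_self]
  have h1 := (LinearMap.isNilpotent_trace_of_isNilpotent hnil).eq_zero
  rw [map_sub, sub_eq_zero] at h1
  exact h1.symm

theorem irr_class' {φ : G → F} (h : IsIrrTrace φ) : IsClassFun φ := by
  obtain ⟨V, _, _, _, ρ, -, rfl⟩ := h
  intro g x
  exact ρ.char_conj x g

theorem pp_sy {p : ℕ} [hp : Fact p.Prime] {f g : G → F} (hf : Reg F p f) (hg : Reg F p g)
    (x : Wr G) (hp2 : p ≠ 2) : sy f g (pp p x) = sy f g x := by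
  have hpow := pow_pp p x
  unfold pp at hpow ⊢
  have hodd : Odd (pexp p (Wr G)) := by
    unfold pexp
    exact ((hp.out.odd_of_ne_two hp2).pow).pow
  obtain ⟨a, b, s⟩ := x
  cases s
  · rw [pow_false, pow_false, pow_false] at hpow
    have h1 := congrArg Wr.a hpow
    have h2 := congrArg Wr.b hpow
    rw [pow_false]
    change f (a ^ _) * g (b ^ _) + g (a ^ _) * f (b ^ _) = f a * g b + g a * f b
    rw [hf a _ _ h1, hf b _ _ h2, hg a _ _ h1, hg b _ _ h2]
  · obtain ⟨j, hj⟩ := hodd
    rw [hj, pow_true]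
    rfl

theorem pp_sw {p : ℕ} [hp : Fact p.Prime] {f : G → F} (hf : Reg F p f)
    (x : Wr G) (hp2 : p ≠ 2) : sw f (pp p x) = sw f x := by
  have hpow := pow_pp p x
  unfold pp at hpow ⊢
  have hodd : Odd (pexp p (Wr G)) := by
    unfold pexp
    exact ((hp.out.odd_of_ne_two hp2).pow).pow
  obtain ⟨a, b, s⟩ := x
  cases s
  · rw [pow_false]
    rfl
  · set e := pexp p (Wr G) with he
    have h2 : (⟨a, b, true⟩ : Wr G) ^ 2 = ⟨a * b, b * a, false⟩ := by
      rw [pow_two, mul_tt]
    have h3 : (⟨a * b, b * a, false⟩ : Wr G) ^ (e * p ^ (Nat.card (Wr G)).factorization p) =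
        ⟨a * b, b * a, false⟩ ^ (p ^ (Nat.card (Wr G)).factorization p) := by
      rw [← h2, ← pow_mul, ← pow_mul, mul_comm 2, mul_comm 2, pow_mul _ (e * _) 2, pow_mul _ e,
        hpow, ← pow_mul]
    rw [pow_false, pow_false] at h3
    have h4 := congrArg Wr.a h3
    replace h4 : (a * b) ^ (e * p ^ (Nat.card (Wr G)).factorization p) =
      (a * b) ^ (p ^ (Nat.card (Wr G)).factorization p) := h4
    rw [pow_mul] at h4
    obtain ⟨j, hj⟩ := hodd
    have h5 : (⟨a, b, true⟩ : Wr G) ^ e = ⟨a * (b * a) ^ j, b * (a * b) ^ j, true⟩ := by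
      rw [hj, pow_true]
    rw [h5]
    change f (a * (b * a) ^ j * (b * (a * b) ^ j)) = f (a * b)
    have h6 : a * (b * a) ^ j * (b * (a * b) ^ j) = (a * b) ^ e := by
      rw [swap_pow, hj, mul_assoc, ← mul_assoc a b, ← pow_succ', ← pow_add]
      congr 1
      ring
    rw [h6]
    exact hf _ _ _ h4

/-! ### eigenvalues -/

theorem To_sy {z f g : G → F} {c d : F} (hf : ∀ x, To z f x = c * f x)
    (hg : ∀ x, To z g x = d * g x) : To (sq z) (sy f g) = (c * d) • sy f g := by
  have : Fintype G := Fintype.ofFinite G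
  funext x
  rw [To_apply, finsum_eq_sum_of_fintype, Wr.sum_eq]
  have e2 : ∑ a' : G, ∑ b' : G, sq z ⟨a', b', true⟩ * sy f g (⟨a', b', true⟩ * x) = 0 := by
    refine Finset.sum_eq_zero fun a' _ => Finset.sum_eq_zero fun b' _ => ?_
    change 0 * _ = (0 : F)
    rw [zero_mul]
  rw [e2, add_zero]
  obtain ⟨a, b, s⟩ := x
  cases s
  · have e1 : ∀ a' b' : G, sq z ⟨a', b', false⟩ * sy f g (⟨a', b', false⟩ * ⟨a, b, false⟩) =
        (z a' * f (a' * a)) * (z b' * g (b' * b)) + (z a' * g (a' * a)) * (z b' * f (b' * b)) := by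
      intro a' b'
      change z a' * z b' * (f (a' * a) * g (b' * b) + g (a' * a) * f (b' * b)) = _
      ring
    simp_rw [e1, Finset.sum_add_distrib, ← Finset.mul_sum, ← Finset.sum_mul]
    have h1 := hf a
    have h2 := hf b
    have h3 := hg a
    have h4 := hg b
    rw [To_apply, finsum_eq_sum_of_fintype] at h1 h2 h3 h4
    rw [h1, h2, h3, h4]
    change _ = c * d * (f a * g b + g a * f b)
    ring
  · change ∑ a' : G, ∑ b' : G, z a' * z b' * (0 : F) = c * d * 0
    simp

theorem To_sw {z f : G → F} {c : F} (hcl : IsClassFun f) (hf : ∀ x, To z f x = c * f x) :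
    To (sq z) (sw f) = (c * c) • sw f := by
  have : Fintype G := Fintype.ofFinite G
  funext x
  rw [To_apply, finsum_eq_sum_of_fintype, Wr.sum_eq]
  have e2 : ∑ a' : G, ∑ b' : G, sq z ⟨a', b', true⟩ * sw f (⟨a', b', true⟩ * x) = 0 := by
    refine Finset.sum_eq_zero fun a' _ => Finset.sum_eq_zero fun b' _ => ?_
    change 0 * _ = (0 : F)
    rw [zero_mul]
  rw [e2, add_zero]
  obtain ⟨a, b, s⟩ := x
  cases s
  · change ∑ a' : G, ∑ b' : G, z a' * z b' * (0 : F) = c * c * 0
    simp
  · change ∑ a' : G, ∑ b' : G, z a' * z b' * f (a' * a * (b' * b)) = c * c * f (a * b)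
    rw [Finset.sum_comm]
    have e1 : ∀ b' : G, ∑ a' : G, z a' * z b' * f (a' * a * (b' * b)) =
        c * (z b' * f (b' * (b * a))) := by
      intro b'
      have h1 := hf (a * (b' * b))
      rw [To_apply, finsum_eq_sum_of_fintype] at h1
      have h2 : ∀ a' : G, z a' * z b' * f (a' * a * (b' * b)) =
          z b' * (z a' * f (a' * (a * (b' * b)))) := by
        intro a'
        rw [mul_assoc a' a]
        ring
      simp_rw [h2]
      rw [← Finset.mul_sum, h1, class_comm hcl a, mul_assoc b']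
      ring
    simp_rw [e1]
    rw [← Finset.mul_sum]
    have h3 := hf (b * a)
    rw [To_apply, finsum_eq_sum_of_fintype] at h3
    rw [h3, class_comm hcl b a]
    ring

end op

/-! ### the number of irreducible traces -/

theorem card_IT (p : ℕ) [Fact p.Prime] (F : Type) [Field F] [IsAlgClosed F] [CharP F p]
    (G : Type) [Group G] [Finite G] :
    Nat.card {φ : G → F // IsIrrTrace φ} = numRegularClasses p G := by
  rw [← invReg_top, ← lreg' p F G ⊤ (pgroup_top p G), Pool.Agent.Y63.NV.lnum_unit]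
  unfold Pool.Agent.Y63.NV.numInvIrr
  refine Nat.card_congr
    { toFun := fun φ => ⟨fun x => φ.1 x,
        Pool.Agent.Y210.NV2.irrTrace_comp (Subgroup.topEquiv (G := G)) φ.2, ?_⟩
      invFun := fun φ => ⟨fun x => φ.1 ⟨x, trivial⟩,
        Pool.Agent.Y210.NV2.irrTrace_comp (Subgroup.topEquiv (G := G)).symm φ.2.1⟩
      left_inv := fun φ => rfl
      right_inv := fun φ => rfl }
  intro g _ x y hxy
  change φ.1 y = φ.1 x
  rw [hxy, irr_class' φ.2]

/-- the number of irreducible traces on which `z` acts as a nonzero scalar -/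
def lst {G : Type} [Group G] (z : G → F) : ℕ :=
  Nat.card {φ : G → F // IsIrrTrace φ ∧ ∃ x, ∑ᶠ g : G, z g * φ (g * x) ≠ 0}

section main

variable {G : Type} [Group G] [Finite G] {p : ℕ} [hp : Fact p.Prime] [IsAlgClosed F] [CharP F p]

/-- the index set of the second basis -/
abbrev Idx (n : ℕ) : Type := {t : Fin n × Fin n // t.1 ≤ t.2} ⊕ Fin n

/-- the second basis -/
def fam {n : ℕ} (φ : Fin n → G → F) : Idx n → Wr G → F
  | Sum.inl t => sy (φ t.1.1) (φ t.1.2)
  | Sum.inr i => sw (φ i)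

theorem fam_indep (h20 : (2 : F) ≠ 0) {n : ℕ} (φ : Fin n → G → F)
    (hφ : LinearIndependent F φ) : LinearIndependent F (fam φ) := by
  rw [Fintype.linearIndependent_iff]
  intro g hg
  rw [Fintype.sum_sum_type] at hg
  have hli := Fintype.linearIndependent_iff.mp hφ
  -- the part outside the base
  have h1 : ∀ i, g (Sum.inr i) = 0 := by
    apply hli
    funext a
    have h2 := congrFun hg ⟨a, 1, true⟩
    simp only [Pi.add_apply, Finset.sum_apply, Pi.smul_apply, Pi.zero_apply, smul_eq_mul] at h2 ⊢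
    have h3 : ∀ t : {t : Fin n × Fin n // t.1 ≤ t.2},
        g (Sum.inl t) * fam φ (Sum.inl t) ⟨a, 1, true⟩ = 0 := fun t => mul_zero _
    have h4 : ∀ i : Fin n, g (Sum.inr i) * fam φ (Sum.inr i) ⟨a, 1, true⟩ =
        g (Sum.inr i) * φ i a := by
      intro i
      change g (Sum.inr i) * φ i (a * 1) = _
      rw [mul_one]
    rw [Finset.sum_congr rfl fun t _ => h3 t, Finset.sum_const_zero, zero_add,
      Finset.sum_congr rfl fun i _ => h4 i] at h2
    exact h2
  -- the base
  set α : Fin n → Fin n → F := fun i j => if h : i ≤ j then g (Sum.inl ⟨(i, j), h⟩) else 0 with hα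
  have h2 : ∀ a b : G, ∑ i : Fin n, ∑ j : Fin n, (α i j + α j i) * (φ i a * φ j b) = 0 := by
    intro a b
    have h3 := congrFun hg ⟨a, b, false⟩
    simp only [Pi.add_apply, Finset.sum_apply, Pi.smul_apply, Pi.zero_apply, smul_eq_mul] at h3
    have h4 : ∀ i : Fin n, g (Sum.inr i) * fam φ (Sum.inr i) ⟨a, b, false⟩ = 0 :=
      fun i => mul_zero _
    rw [Finset.sum_congr rfl fun t _ => h4 t, Finset.sum_const_zero, add_zero] at h3
    have h5 : ∑ t : {t : Fin n × Fin n // t.1 ≤ t.2},
        g (Sum.inl t) * fam φ (Sum.inl t) ⟨a, b, false⟩ =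
        ∑ t : Fin n × Fin n, α t.1 t.2 * (φ t.1 a * φ t.2 b + φ t.2 a * φ t.1 b) := by
      rw [← Finset.sum_subset (Finset.filter_subset (fun t : Fin n × Fin n => t.1 ≤ t.2)
        Finset.univ)]
      · symm
        rw [Finset.sum_subtype (p := fun t : Fin n × Fin n => t.1 ≤ t.2)
          (Finset.univ.filter fun t : Fin n × Fin n => t.1 ≤ t.2) (by simp)
          (fun t => α t.1 t.2 * (φ t.1 a * φ t.2 b + φ t.2 a * φ t.1 b))]
        refine Finset.sum_congr rfl fun t _ => ?_
        simp only [hα]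
        rw [dif_pos t.2]
        rfl
      · intro t _ ht
        have h6 : ¬ t.1 ≤ t.2 := by
          intro h
          exact ht (by simp [h])
        simp only [hα]
        rw [dif_neg h6, zero_mul]
    rw [h5, Fintype.sum_prod_type] at h3
    simp only at h3
    have h6 : ∑ i : Fin n, ∑ j : Fin n, α i j * (φ j a * φ i b) =
        ∑ i : Fin n, ∑ j : Fin n, α j i * (φ i a * φ j b) := Finset.sum_comm
    simp only [mul_add, Finset.sum_add_distrib] at h3
    rw [h6] at h3
    simp only [add_mul, Finset.sum_add_distrib]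
    exact h3
  have h3 : ∀ i j, α i j + α j i = 0 := by
    intro i
    -- fix `b`
    have h4 : ∀ b : G, ∀ i, ∑ j : Fin n, (α i j + α j i) * φ j b = 0 := by
      intro b
      apply hli
      funext a
      simp only [Finset.sum_apply, Pi.smul_apply, Pi.zero_apply, smul_eq_mul]
      rw [← h2 a b]
      refine Finset.sum_congr rfl fun i _ => ?_
      rw [Finset.sum_mul]
      exact Finset.sum_congr rfl fun j _ => by ring
    apply hli
    funext b
    simp only [Finset.sum_apply, Pi.smul_apply, Pi.zero_apply, smul_eq_mul]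
    exact h4 b i
  rintro (⟨⟨i, j⟩, hij⟩ | i)
  · have h4 := h3 i j
    have h5 : α i j = g (Sum.inl ⟨(i, j), hij⟩) := dif_pos hij
    rcases eq_or_lt_of_le hij with h | h
    · have h' : i = j := h
      subst h'
      rw [← two_mul] at h4
      rw [← h5]
      exact (mul_eq_zero.mp h4).resolve_left h20
    · have h' : i < j := h
      have h6 : α j i = 0 := dif_neg (not_le_of_gt h')
      rw [h6, add_zero, h5] at h4
      exact h4
  · exact h1 i

theorem lst_wr (hp2 : p ≠ 2) {z : G → F} (hz : IsClassFun z) :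
    2 * lst (sq z) = lst z ^ 2 + 3 * lst z := by
  have f0 : Fintype G := Fintype.ofFinite G
  have h20 : (2 : F) ≠ 0 := by
    intro h
    have h1 : ((2 : ℕ) : F) = 0 := by exact_mod_cast h
    rw [CharP.cast_eq_zero_iff F p] at h1
    exact hp2 ((Nat.prime_dvd_prime_iff_eq hp.out Nat.prime_two).mp h1)
  -- the irreducible traces of `G`
  have hfin : Finite {φ : G → F // IsIrrTrace φ} := (Pool.Agent.Y914.NV.irr F G).1.to_subtype
  have hfin' : Finite {φ : Wr G → F // IsIrrTrace φ} :=
    (Pool.Agent.Y914.NV.irr F (Wr G)).1.to_subtype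
  set n := Nat.card {φ : G → F // IsIrrTrace φ} with hn
  let e : Fin n ≃ {φ : G → F // IsIrrTrace φ} := (Finite.equivFin _).symm
  set φ : Fin n → G → F := fun i => (e i).1 with hφ
  have hφi : ∀ i, IsIrrTrace (φ i) := fun i => (e i).2
  have hind : LinearIndependent F φ :=
    (Pool.Agent.Y914.NV.irr F G).2.comp e e.injective
  -- eigenvalues
  have hval : ∀ (K : Type) [Group K] [Finite K] (w : K → F), IsClassFun w → ∀ ψ : K → F,
      IsIrrTrace ψ → ∃ c : F, (∀ x, To w ψ x = c * ψ x) ∧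
        (c ≠ 0 ↔ ∃ x, ∑ᶠ g : K, w g * ψ (g * x) ≠ 0) := by
    intro K _ _ w hw ψ hψ
    obtain ⟨⟨x, hx⟩, B, hB, hact⟩ := schur' F K ψ hψ
    refine ⟨B w, fun y => hact w hw y, ?_⟩
    constructor
    · intro hc
      exact ⟨x, by rw [hact w hw x]; exact mul_ne_zero hc hx⟩
    · rintro ⟨y, hy⟩ hc
      rw [hact w hw y, hc, zero_mul] at hy
      exact hy rfl
  choose c hc1 hc2 using fun i => hval G z hz (φ i) (hφi i)
  have hsq : IsClassFun (sq z) := Cf_sq (f := z) hz
  choose d hd1 hd2 using fun ψ : {ψ : Wr G → F // IsIrrTrace ψ} => hval (Wr G) (sq z) hsq ψ.1 ψ.2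
  -- the two bases span the same space
  have hspan : Submodule.span F (Set.range (fam φ)) =
      Submodule.span F (Set.range (fun ψ : {ψ : Wr G → F // IsIrrTrace ψ} => ψ.1)) := by
    have hle : Submodule.span F (Set.range (fam φ)) ≤
        Submodule.span F (Set.range (fun ψ : {ψ : Wr G → F // IsIrrTrace ψ} => ψ.1)) := by
      have hr : Set.range (fun ψ : {ψ : Wr G → F // IsIrrTrace ψ} => ψ.1) =
          {ψ : Wr G → F | IsIrrTrace ψ} := Subtype.range_coe
      rw [hr, Submodule.span_le]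
      rintro _ ⟨t | i, rfl⟩
      · exact span' p F (Wr G) _ (Cf_sy (irr_class' (hφi _)) (irr_class' (hφi _)))
          (fun x => pp_sy (irr_reg p (hφi _)) (irr_reg p (hφi _)) x hp2)
      · exact span' p F (Wr G) _ (Cf_sw (irr_class' (hφi _)))
          (fun x => pp_sw (irr_reg p (hφi _)) x hp2)
    have f1 : Fintype {ψ : Wr G → F // IsIrrTrace ψ} := Fintype.ofFinite _
    apply Submodule.eq_of_le_of_finrank_eq hle
    rw [finrank_span_eq_card (fam_indep h20 φ hind),
      finrank_span_eq_card (Pool.Agent.Y914.NV.irr F (Wr G)).2]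
    have h3 := numRegularClasses_wr (p := p) (G := G) hp.out hp2
    rw [← card_IT p F G, ← card_IT p F (Wr G), ← hn, Nat.card_eq_fintype_card] at h3
    have h4 : 2 * Fintype.card {t : Fin n × Fin n // t.1 ≤ t.2} = n ^ 2 + n := by
      have h5 := card_le_pairs (Finset.univ : Finset (Fin n))
      rw [Finset.card_univ, Fintype.card_fin] at h5
      rw [Fintype.card_subtype, ← h5]
      congr 2
      ext t
      simp
    have h5 : Fintype.card (Idx n) = Fintype.card {t : Fin n × Fin n // t.1 ≤ t.2} + n := by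
      rw [Fintype.card_sum, Fintype.card_fin]
    rw [h5]
    omega
  -- the two ranks
  have r1 := rank_eig (To (sq z)) (fun ψ : {ψ : Wr G → F // IsIrrTrace ψ} => ψ.1)
    (Pool.Agent.Y914.NV.irr F (Wr G)).2 d (fun ψ => funext fun x => hd1 ψ x)
  let c' : Idx n → F := fun s => Sum.elim (fun t => c t.1.1 * c t.1.2) (fun i => c i * c i) s
  have r2 := rank_eig (To (sq z)) (fam φ) (fam_indep h20 φ hind) c' (by
    rintro (t | i)
    · exact To_sy (hc1 _) (hc1 _)
    · exact To_sw (irr_class' (hφi i)) (hc1 i))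
  rw [hspan, r1] at r2
  have e1 : lst (sq z) = Nat.card {ψ : {ψ : Wr G → F // IsIrrTrace ψ} // d ψ ≠ 0} := by
    unfold lst
    exact Nat.card_congr
      { toFun := fun ψ => ⟨⟨ψ.1, ψ.2.1⟩, (hd2 _).mpr ψ.2.2⟩
        invFun := fun ψ => ⟨ψ.1.1, ψ.1.2, (hd2 _).mp ψ.2⟩
        left_inv := fun ψ => rfl
        right_inv := fun ψ => rfl }
  set S : Finset (Fin n) := Finset.univ.filter fun i => c i ≠ 0 with hS
  have e2 : lst z = S.card := by
    unfold lst
    rw [← Fintype.card_coe, ← Nat.card_eq_fintype_card]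
    symm
    refine Nat.card_congr (Equiv.ofBijective (fun i => ⟨φ i.1, hφi i.1, ?_⟩) ⟨?_, ?_⟩)
    · rw [← hc2]
      exact (Finset.mem_filter.mp i.2).2
    · intro i j h
      have h' : φ i.1 = φ j.1 := by injection h
      exact Subtype.ext (e.injective (Subtype.ext h'))
    · rintro ⟨ψ, h1, h2⟩
      obtain ⟨i, hi⟩ := e.surjective ⟨ψ, h1⟩
      have h3 : φ i = ψ := congrArg Subtype.val hi
      refine ⟨⟨i, ?_⟩, Subtype.ext h3⟩
      rw [hS, Finset.mem_filter]
      refine ⟨Finset.mem_univ _, ?_⟩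
      rw [hc2, h3]
      exact h2
  have e3 : Nat.card {s : Idx n // c' s ≠ 0} = (Finset.univ.filter fun t : Fin n × Fin n =>
      t.1 ≤ t.2 ∧ t.1 ∈ S ∧ t.2 ∈ S).card + S.card := by
    rw [← Fintype.card_coe, ← Fintype.card_coe, ← Fintype.card_sum, ← Nat.card_eq_fintype_card]
    refine Nat.card_congr
      { toFun := fun s => match s with
          | ⟨Sum.inl t, h⟩ => Sum.inl ⟨t.1, ?_⟩
          | ⟨Sum.inr i, h⟩ => Sum.inr ⟨i, ?_⟩
        invFun := fun s => match s with
          | Sum.inl t => ⟨Sum.inl ⟨t.1, ?_⟩, ?_⟩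
          | Sum.inr i => ⟨Sum.inr i.1, ?_⟩
        left_inv := ?_
        right_inv := ?_ }
    · have h1 : c t.1.1 * c t.1.2 ≠ 0 := h
      simp only [Finset.mem_filter, Finset.mem_univ, true_and, hS]
      exact ⟨t.2, left_ne_zero_of_mul h1, right_ne_zero_of_mul h1⟩
    · have h1 : c i * c i ≠ 0 := h
      simp only [Finset.mem_filter, Finset.mem_univ, true_and, hS]
      exact left_ne_zero_of_mul h1
    · exact (Finset.mem_filter.mp t.2).2.1
    · have h1 := (Finset.mem_filter.mp t.2).2.2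
      exact mul_ne_zero (Finset.mem_filter.mp h1.1).2 (Finset.mem_filter.mp h1.2).2
    · have h1 := (Finset.mem_filter.mp i.2).2
      exact mul_ne_zero h1 h1
    · rintro ⟨t | i, h⟩ <;> rfl
    · rintro (t | i) <;> rfl
  rw [e1, r2, e3, e2]
  have h5 := card_le_pairs S
  rw [mul_add, h5]
  ring

end main

end Pool.Agent.Q149.WB
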