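import Pool.Agent.Q149.WB.Fin

/-!
# Reduced groups
-/

set_option autoImplicit false
set_option linter.unusedSectionVars false

noncomputable section

namespace Pool.Agent.Q149.WB

open Pool.Agent.Q90.WR Pool.Agent.Q149.WA
open Pool.Agent.Y63.NV (Reduced)

/-- `G ≀ C₂` is reduced if `G` is. -/
theorem reduced_wr {p : ℕ} [hp : Fact p.Prime] (hp2 : p ≠ 2) {G : Type} [Group G] [Finite G]
    (h : Reduced p G) : Reduced p (Wr G) := by
  constructor
  · intro N hN hidx
    -- the two factors of the base group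
    have key : ∀ f : G →* Wr G, ∀ a, f a ∈ N := by
      intro f a
      have h1 : (N.comap f).index ∣ p := by
        rw [Subgroup.index_comap, ← hidx]
        exact Subgroup.relIndex_dvd_index_of_normal N f.range
      rcases (Nat.dvd_prime hp.out).mp h1 with h2 | h2
      · rw [Subgroup.index_eq_one] at h2
        have : a ∈ N.comap f := h2 ▸ Subgroup.mem_top a
        exact this
      · exact absurd h2 (h.perfect _ inferInstance)
    have hb : ∀ a b : G, (⟨a, b, false⟩ : Wr G) ∈ N := by
      intro a b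
      have h1 := key ((Wr.base G).comp (MonoidHom.inl G G)) a
      have h2 := key ((Wr.base G).comp (MonoidHom.inr G G)) b
      have h3 := N.mul_mem h1 h2
      have h4 : (Wr.base G).comp (MonoidHom.inl G G) a * (Wr.base G).comp (MonoidHom.inr G G) b =
          (⟨a, b, false⟩ : Wr G) := by
        change (⟨a * 1, 1 * b, false⟩ : Wr G) = _
        rw [mul_one, one_mul]
      rwa [h4] at h3
    have h5 : ∀ x y : Wr G, x ∉ N → y ∉ N → x⁻¹ * y ∈ N := by
      rintro ⟨a, b, s⟩ ⟨a', b', s'⟩ hx hy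
      cases s
      · exact absurd (hb a b) hx
      cases s'
      · exact absurd (hb a' b') hy
      exact hb _ _
    have h6 : N.index ≤ 2 := by
      classical
      have : Fintype (Wr G ⧸ N) := Fintype.ofFinite _
      rw [Subgroup.index, Nat.card_eq_fintype_card, ← Fintype.card_bool]
      refine Fintype.card_le_of_injective (fun q : Wr G ⧸ N => decide (q = ((1 : Wr G) : Wr G ⧸ N)))
        ?_
      intro q r hqr
      obtain ⟨x, rfl⟩ := QuotientGroup.mk_surjective q
      obtain ⟨y, rfl⟩ := QuotientGroup.mk_surjective r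
      have hm : ∀ z : Wr G, ((z : Wr G ⧸ N) = ((1 : Wr G) : Wr G ⧸ N)) ↔ z ∈ N := fun z =>
        QuotientGroup.eq_one_iff z
      simp only [decide_eq_decide, hm] at hqr
      by_cases hx : x ∈ N
      · rw [(hm x).2 hx, (hm y).2 (hqr.1 hx)]
      · exact QuotientGroup.eq.2 (h5 x y hx fun hy => hx (hqr.2 hy))
    have h7 := hp.out.two_le
    omega
  · intro M hM hMp
    have h1 : pA M = ⊥ := by
      refine h.radical _ ⟨fun a ha g => ?_⟩ (isPGroup_pA hMp)
      rw [mem_pA] at ha ⊢
      obtain ⟨b, hb⟩ := ha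
      exact ⟨1 * b * 1⁻¹, hM.conj_mem _ hb ⟨g, 1, false⟩⟩
    have h2 : pB M = ⊥ := by
      refine h.radical _ ⟨fun b hb g => ?_⟩ (isPGroup_pB hMp)
      rw [mem_pB] at hb ⊢
      obtain ⟨a, ha⟩ := hb
      exact ⟨1 * a * 1⁻¹, hM.conj_mem _ ha ⟨1, g, false⟩⟩
    rw [eq_bot_iff]
    rintro ⟨a, b, s⟩ hx
    obtain ⟨h3, h4, h5⟩ := le_ps hp.out hp2 hMp hx
    rw [h1, Subgroup.mem_bot] at h4
    rw [h2, Subgroup.mem_bot] at h5
    simp only at h3 h4 h5
    rw [Subgroup.mem_bot, h3, h4, h5]
    rfl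

end Pool.Agent.Q149.WB
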